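import Pool.Agent.Q170.HL.Main

/-!
The local criterion for the Hodge locus in the base (helper file).
-/

set_option autoImplicit false

namespace Pool.Agent.Q170.HL

open H294ZP UpperHalfPlane MvPolynomial Pool.Agent.W282.ZP Pool.Agent.Y152.BD Pool.Agent.TH526.ZL
open Pool.Agent.Q170.ZP (IndExp coreW)
open Pool.Agent.Q170.ZP.Multi (evM evM_apply)

/-- the linear form with integral coefficients `s` -/
noncomputable def lform (Λ : Type) [CommRing Λ] {N : ℕ} (s : Fin (N + 1) → ℤ) :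
    MvPolynomial (Fin (N + 1)) Λ :=
  ∑ j, C ((s j : ℤ) : Λ) * X j

theorem lform_eval {Λ F : Type} [CommRing Λ] [CommRing F] (φ : Λ →+* F) {N : ℕ}
    (s : Fin (N + 1) → ℤ) (y : Fin (N + 1) → F) :
    eval₂ φ y (lform Λ s) = ∑ j, (s j : F) * y j := by
  rw [lform, ← coe_eval₂Hom, map_sum]
  refine Finset.sum_congr rfl fun j _ => ?_
  rw [map_mul, coe_eval₂Hom, eval₂_C, eval₂_X, map_intCast]

/-- The local criterion for the points of the base which are mapped to special subvarieties. -/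
theorem criterionH {Λ : Type} [CommRing Λ] [IsDomain Λ] [Algebra Λ ℂ]
    (hinj : Function.Injective (algebraMap Λ ℂ)) (K : Subfield ℂ)
    (hK : ∀ a : Λ, algebraMap Λ ℂ a ∈ K) {κ : Type} [Finite κ] {N n m : ℕ}
    (G : κ → MvPolynomial (Fin (N + 1)) Λ) (hG : ∀ i, ∃ e, (G i).IsHomogeneous e)
    (A P : Fin n → MvPolynomial (Fin (N + 1)) Λ) (d : Fin n → ℕ)
    (hA : ∀ i, (A i).IsHomogeneous (d i))
    (R : Fin n → Polynomial (Polynomial Λ)) (hR : ∀ i, (R i).Monic) {T : ℕ}
    (hT : ∀ i u w, ((R i).coeff u).coeff w ≠ 0 → u ≤ T ∧ w ≤ T)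
    (𝔭 : Fin (m + 2) → Ideal Λ) (h𝔭 : ∀ l, (𝔭 l).IsPrime)
    (U : Fin (m + 2) → Fin n → MvPolynomial (Fin (N + 1)) Λ)
    (hU : ∀ l i, (U l i).IsHomogeneous (d i)) (h : Fin (m + 2) → Fin (m + 1) → Fin (N + 1) → ℤ)
    (hpos : ∀ l (F : Type) [Field F] (φ : Λ →+* F), RingHom.ker φ = 𝔭 l →
      ∀ (I : Finset (Fin n)) (J : Finset (Fin (m + 1))), I.card + J.card = m + 1 →
      ∀ y : Fin (N + 1) → F, y ≠ 0 → (∀ k, eval₂ φ y (G k) = 0) →
      (∃ i ∈ I, eval₂ φ y (A i) * eval₂ φ y (U l i) ≠ 0) ∨ ∃ b ∈ J, ∑ j, (h l b j : F) * y j ≠ 0)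
    (hRu : ∀ l i u w, ((R i).coeff u).coeff w ≠ 0 → ((R i).coeff u).coeff w ∉ 𝔭 l)
    (π : Fin (m + 2) → Λ) (hπ : ∀ l, π l ∈ 𝔭 l) (hπ0 : ∀ l, π l ≠ 0)
    (e : Fin (m + 2) → Fin n → ℕ) (he : IndExp T e)
    (hP : ∀ l i, ∃ a b : Λ, a ∉ 𝔭 l ∧ b ∉ 𝔭 l ∧ C a * P i = C (b * π l ^ e l i) * U l i)
    {r : ℕ} (cls : Fin n → Option (Fin r)) (δ : Fin n → ℕ) (x s : Fin n → ℂ)
    (hδ : ∀ i, 0 < δ i)
    (hconst : ∀ i, cls i = none → IsIntegral Λ (x i))
    (hrel : ∀ i j l, cls i = some l → cls j = some l →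
        IsIntegral (Algebra.adjoin ℤ {x i}) (x j) ∧
        Polynomial.eval₂ (Polynomial.aeval (x i) : Polynomial ℂ →ₐ[ℂ] ℂ).toRingHom (x j)
          (W282.ZP.Psi (δ i * δ j)) = 0)
    (hRs : ∀ i, Polynomial.eval₂ (Polynomial.aeval (x i) : Polynomial Λ →ₐ[Λ] ℂ).toRingHom (s i)
      (R i) = 0)
    (y : Fin (N + 1) → ℂ) (hy0 : y ≠ 0) (hyG : ∀ i, aeval y (G i) = 0)
    (hxy : ∀ i, aeval y (P i) * s i = aeval y (A i))
    (j0 : Fin (N + 1)) (T' : Finset (Fin (N + 1)))
    (hT' : AlgebraicIndependent K (fun j : T' => y j / y j0)) :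
    T'.card + n ≤ r + m := by
  classical
  let k := algebraicClosure K ℂ
  let fK : Λ →+* K := (algebraMap Λ ℂ).codRestrict K hK
  let i1 : Algebra Λ K := fK.toAlgebra
  have hst : IsScalarTower Λ K ℂ := IsScalarTower.of_algebraMap_eq fun _ => rfl
  have hfK : Function.Injective (algebraMap Λ K) := fun a b h => hinj (congrArg Subtype.val h)
  -- the divisors and the hyperplanes
  let A' : Fin (m + 2) → Fin n ⊕ Fin (m + 1) → MvPolynomial (Fin (N + 1)) Λ := fun l =>
    Sum.elim A (fun b => lform Λ (h l b))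
  let B' : Fin (m + 2) → Fin n ⊕ Fin (m + 1) → MvPolynomial (Fin (N + 1)) Λ := fun l =>
    Sum.elim (U l) (fun _ => 1)
  have hplace : ∀ l (V : ValuationSubring ℂ), (∀ a : Λ, V.valuation (algebraMap Λ ℂ a) ≤ 1) →
      (∀ a : Λ, V.valuation (algebraMap Λ ℂ a) < 1 ↔ a ∈ 𝔭 l) →
      ∀ y : Fin (N + 1) → ℂ, y ≠ 0 → (∀ i, aeval y (G i) = 0) →
      ∃ c : ℂ, c ≠ 0 ∧ (∀ i, V.valuation (aeval (c • y) (A i)) ≤ 1) ∧
        (∀ i, V.valuation (aeval (c • y) (U l i)) ≤ 1) ∧
        (∀ b, V.valuation (∑ j, (h l b j : ℂ) * (c • y) j) ≤ 1) ∧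
        ∀ (I : Finset (Fin n)) (J : Finset (Fin (m + 1))), I.card + J.card = m + 1 →
          (∃ i ∈ I, V.valuation (aeval (c • y) (A i) * aeval (c • y) (U l i)) = 1) ∨
          ∃ b ∈ J, V.valuation (∑ j, (h l b j : ℂ) * (c • y) j) = 1 := by
    intro l V hV hV' y hy0 hyG
    obtain ⟨c, hc, hcAB, hcI⟩ := good_place (m := m) (𝔭 := 𝔭 l) G hG (A' l) (B' l)
      (fun F _ φ hφ I hI y hy hyG => by
        have h1 : I.toLeft.card + I.toRight.card = m + 1 := by
          rw [Finset.card_toLeft_add_card_toRight]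
          exact hI
        rcases hpos l F φ hφ I.toLeft I.toRight h1 y hy hyG with ⟨i, hi, h2⟩ | ⟨b, hb, h2⟩
        · exact ⟨Sum.inl i, Finset.mem_toLeft.1 hi, h2⟩
        · refine ⟨Sum.inr b, Finset.mem_toRight.1 hb, ?_⟩
          simp only [A', B', Sum.elim_inr]
          rw [lform_eval, eval₂_one, mul_one]
          exact h2) V hV hV' y hy0 hyG
    have hlf : ∀ b, aeval (c • y) (lform Λ (h l b)) = ∑ j, (h l b j : ℂ) * (c • y) j := fun b =>
      lform_eval (algebraMap Λ ℂ) (h l b) (c • y)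
    refine ⟨c, hc, fun i => (ValuationSubring.valuation_le_one_iff _ _).2 (hcAB (Sum.inl i)).1,
      fun i => (ValuationSubring.valuation_le_one_iff _ _).2 (hcAB (Sum.inl i)).2, fun b => ?_,
      fun I J hIJ => ?_⟩
    · have h1 := (hcAB (Sum.inr b)).1
      simp only [A', Sum.elim_inr] at h1
      rw [hlf] at h1
      exact (ValuationSubring.valuation_le_one_iff _ _).2 h1
    · obtain ⟨i, hi, h1⟩ := hcI (I.disjSum J) (by rw [Finset.card_disjSum]; exact hIJ)
      rcases i with i | b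
      · rw [Finset.inl_mem_disjSum] at hi
        exact Or.inl ⟨i, hi, h1⟩
      · rw [Finset.inr_mem_disjSum] at hi
        refine Or.inr ⟨b, hi, ?_⟩
        simp only [A', B', Sum.elim_inr] at h1
        rwa [map_one, mul_one, hlf] at h1
  -- no point of the base on all the linear forms
  have hlin : ∀ l (y : Fin (N + 1) → ℂ), (∀ i, aeval y (G i) = 0) →
      (∀ b, ∑ j, (h l b j : ℂ) * y j = 0) → y = 0 := by
    intro l y hyG hyL
    by_contra hy0
    have := h𝔭 l
    obtain ⟨V, hV1, hV2, -⟩ := exists_place (𝔭 l) (Empty.elim : Empty → ℂ)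
      (algebraicIndependent_empty_type_iff.2 hinj)
    obtain ⟨c, -, -, -, -, hI⟩ := hplace l V hV1 hV2 y hy0 hyG
    rcases hI ∅ Finset.univ (by rw [Finset.card_empty, Finset.card_univ, Fintype.card_fin,
      zero_add]) with ⟨i, hi, -⟩ | ⟨b, -, h2⟩
    · exact absurd hi (Finset.notMem_empty _)
    · rw [lf_smul, hyL b, mul_zero, map_zero] at h2
      exact zero_ne_one h2
  -- the forms as forms over `K`
  let sp : Λ →+* MvPolynomial (Fin 0) K := (C : K →+* MvPolynomial (Fin 0) K).comp fK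
  have hev : ∀ (y : Fin (N + 1) → ℂ) (a : κ) (t : Fin 0 → ℂ),
      eval₂ (evM K t) y (MvPolynomial.map sp (G a)) = aeval y (G a) := by
    intro y a t
    rw [eval₂_map]
    have h1 : (evM K t).comp sp = algebraMap Λ ℂ := by
      refine RingHom.ext fun a => ?_
      simp only [sp, RingHom.comp_apply, evM_apply, aeval_C]
      rfl
    rw [h1]
    rfl
  choose Wf hWf hgoodAt using fun l => goodAt_fixed K κ (r := 0)
    (fun a => MvPolynomial.map sp (G a))
    (fun a => by
      obtain ⟨e, he⟩ := hG a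
      exact ⟨e, he.map _⟩) (h l) (fun j => j.elim0)
    (fun y h1 h2 => hlin l y (fun a => by
      rw [← hev y a]
      exact h1 a) h2)
  -- a linear form which does not vanish
  have hb0 : ∀ l, ∃ b0 : Fin (m + 1), ∑ j, (h l b0 j : ℂ) * y j ≠ 0 := by
    intro l
    by_contra hcon
    push Not at hcon
    exact hy0 (hlin l y hyG hcon)
  choose b0 hb0 using hb0
  have hTk' : AlgebraicIndependent k (fun j : T' => y j / y j0) := hT'.extendScalars k
  have hsm : ∀ (c : ℂ) (z : Fin (N + 1) → ℂ) (Q : MvPolynomial (Fin (N + 1)) Λ) (f : ℕ),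
      Q.IsHomogeneous f → aeval (c • z) Q = c ^ f * aeval z Q := by
    intro c z Q f hQ
    have h1 := Pool.Agent.W466.ZC.eval_smul (hQ.map (algebraMap Λ ℂ)) c z
    rwa [eval_map, eval_map, ← aeval_def, ← aeval_def] at h1
  have hz : ∀ l, (∑ j, (h l (b0 l) j : ℂ) * y j)⁻¹ • y ≠ 0 := fun l =>
    smul_ne_zero (inv_ne_zero (hb0 l)) hy0
  have hzG : ∀ l a, aeval ((∑ j, (h l (b0 l) j : ℂ) * y j)⁻¹ • y) (G a) = 0 := by
    intro l a
    obtain ⟨w, hw⟩ := hG a
    rw [hsm _ _ _ w hw, hyG a, mul_zero]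
  have hrk : ∀ l, ∃ S : Finset (Fin (m + 1)), S.card = T'.card ∧ AlgebraicIndependent k
      (fun b : S => (∑ j, (h l (b0 l) j : ℂ) * y j)⁻¹ * ∑ j, (h l b j : ℂ) * y j) := by
    intro l
    have h1 := rk_ratio (k := k) (hWf l) (hgoodAt l _ (hz l) (fun a => by
      rw [hev]
      exact hzG l a)) j0 T' (by
      convert hTk' using 1
      funext j
      rw [Pi.smul_apply, Pi.smul_apply, smul_eq_mul, smul_eq_mul,
        mul_div_mul_left _ _ (inv_ne_zero (hb0 l))])
    obtain ⟨S, hS1, hS2⟩ := h1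
    refine ⟨S, hS1, ?_⟩
    simp only [lf_smul] at hS2
    exact hS2
  choose S hS1 hS2 using hrk
  have hinjk : Function.Injective (algebraMap Λ k) := by
    intro a b hab
    apply hinj
    have h1 := congrArg (algebraMap k ℂ) hab
    exact h1
  have hπk : ∀ l, algebraMap K k (fK (π l)) ≠ 0 := fun l => by
    rw [map_ne_zero]
    intro h0
    exact hπ0 l (hfK (h0.trans (map_zero _).symm))
  have htow : IsScalarTower Λ k ℂ := IsScalarTower.of_algebraMap_eq fun _ => rfl
  choose V hV1 hV2 hVx using fun l => by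
    have := h𝔭 l
    exact exists_place (𝔭 l) _ ((Pool.Agent.W466.EP.algInd_smul (hS2 l)
      (fun _ => (algebraMap K k (fK (π l)))⁻¹) (fun _ => inv_ne_zero (hπk l))).restrictScalars
        hinjk)
  have hVπ : ∀ l, (V l).valuation (algebraMap Λ ℂ (π l)) < 1 := fun l => (hV2 l _).2 (hπ l)
  have hunit : ∀ l (a : Λ), a ∉ 𝔭 l → (V l).valuation (algebraMap Λ ℂ a) = 1 := by
    intro l a ha
    refine le_antisymm (hV1 l a) ?_
    by_contra h
    push Not at h
    exact ha ((hV2 l a).1 h)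
  choose c hc hcA hcU hcL hcI using fun l => hplace l (V l) (hV1 l) (hV2 l) y hy0 hyG
  -- the linear forms of `S l`
  have hSb : ∀ l, ∀ b ∈ S l, (V l).valuation (∑ j, (h l b j : ℂ) * (c l • y) j) < 1 := by
    intro l b hbS
    have h3 := (ValuationSubring.valuation_le_one_iff (V l) _).2 (hVx l ⟨b, hbS⟩)
    have h5 := hcL l (b0 l)
    have hπ0' : algebraMap Λ ℂ (π l) ≠ 0 := fun h0 => hπ0 l (hinj (h0.trans (map_zero _).symm))
    have h6 : algebraMap k ℂ ((algebraMap K k (fK (π l)))⁻¹) = (algebraMap Λ ℂ (π l))⁻¹ := by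
      rw [map_inv₀]
      rfl
    rw [h6] at h3
    have h4 : (∑ j, (h l b j : ℂ) * (c l • y) j) = algebraMap Λ ℂ (π l) *
        ((algebraMap Λ ℂ (π l))⁻¹ * ((∑ j, (h l (b0 l) j : ℂ) * y j)⁻¹ *
          ∑ j, (h l b j : ℂ) * y j)) *
        (∑ j, (h l (b0 l) j : ℂ) * (c l • y) j) := by
      rw [lf_smul, lf_smul]
      have h7 := hb0 l
      field_simp
    rw [h4, map_mul, map_mul]
    calc (V l).valuation (algebraMap Λ ℂ (π l)) * (V l).valuation
          ((algebraMap Λ ℂ (π l))⁻¹ * ((∑ j, (h l (b0 l) j : ℂ) * y j)⁻¹ *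
            ∑ j, (h l b j : ℂ) * y j)) *
          (V l).valuation (∑ j, (h l (b0 l) j : ℂ) * (c l • y) j)
        ≤ (V l).valuation (algebraMap Λ ℂ (π l)) * 1 * 1 := mul_le_mul' (mul_le_mul' le_rfl h3) h5
      _ < 1 := by
        rw [mul_one, mul_one]
        exact hVπ l
  -- the exceptional coordinates
  let X : Fin (m + 2) → Finset (Fin n) := fun l => Finset.univ.filter fun i =>
    (V l).valuation (aeval (c l • y) (A i) * aeval (c l • y) (U l i)) ≠ 1
  have hcard : ∀ l, (X l).card + T'.card ≤ m := by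
    intro l
    by_contra hcon
    push Not at hcon
    have h0 : m < ((X l).disjSum (S l)).card := by
      rw [Finset.card_disjSum, hS1 l]
      exact hcon
    obtain ⟨I, hIE, hIc⟩ := Finset.exists_subset_card_eq (Nat.succ_le_of_lt h0)
    rcases hcI l I.toLeft I.toRight (by
      rw [Finset.card_toLeft_add_card_toRight]
      exact hIc) with ⟨i, hi, h1⟩ | ⟨b, hb, h1⟩
    · have h2 := hIE (Finset.mem_toLeft.1 hi)
      rw [Finset.inl_mem_disjSum] at h2
      exact (Finset.mem_filter.1 h2).2 h1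
    · have h2 := hIE (Finset.mem_toRight.1 hb)
      rw [Finset.inr_mem_disjSum] at h2
      exact (hSb l b h2).ne h1
  have hval : ∀ l i, i ∉ X l → (V l).valuation (s i) *
      (V l).valuation (algebraMap Λ ℂ (π l)) ^ e l i = 1 := by
    intro l i hi
    have h1 : (V l).valuation (aeval (c l • y) (A i) * aeval (c l • y) (U l i)) = 1 := by
      by_contra h4
      exact hi (Finset.mem_filter.2 ⟨Finset.mem_univ _, h4⟩)
    rw [map_mul] at h1
    have hA2 : (V l).valuation (aeval (c l • y) (A i)) = 1 := by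
      refine le_antisymm (hcA l i) ?_
      by_contra h
      push Not at h
      have h2 := (mul_le_of_le_one_right' (hcU l i)).trans_lt h
      rw [h1] at h2
      exact lt_irrefl _ h2
    have hU2 : (V l).valuation (aeval (c l • y) (U l i)) = 1 := by
      rwa [hA2, one_mul] at h1
    obtain ⟨a, b, ha, hb, hab⟩ := hP l i
    have h2 : algebraMap Λ ℂ a * aeval (c l • y) (A i) =
        algebraMap Λ ℂ b * algebraMap Λ ℂ (π l) ^ e l i * aeval (c l • y) (U l i) * s i := by
      have h3 := congrArg (aeval y) hab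
      rw [map_mul, map_mul, aeval_C, aeval_C, map_mul, map_pow] at h3
      rw [hsm _ _ _ _ (hA i), hsm _ _ _ _ (hU l i), ← hxy i]
      calc algebraMap Λ ℂ a * (c l ^ d i * (aeval y (P i) * s i)) =
          c l ^ d i * s i * (algebraMap Λ ℂ a * aeval y (P i)) := by ring
        _ = _ := by rw [h3]; ring
    have h4 := congrArg (V l).valuation h2
    rw [map_mul, map_mul, map_mul, map_mul, map_pow, hA2, hU2, hunit l a ha, hunit l b hb,
      mul_one, mul_one, one_mul] at h4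
    rw [h4, mul_comm]
  have hmT : T'.card ≤ m := (Nat.le_add_left _ _).trans (hcard 0)
  have hmain := coreW (m := m - T'.card) (T := T) (L := m + 2) (by omega)
    R hR hT e he cls δ x s hδ (fun i hi => (hconst i hi).isAlgebraic) hrel hRs ∅
    (algebraicIndependent_empty_type_iff.2 hinj) V
    (fun l => (V l).valuation (algebraMap Λ ℂ (π l))) hVπ
    (fun l i hi => mem_of_int (V l) (hV1 l) (hconst i hi))
    (fun l i u w h0 => hunit l _ (hRu l i u w h0))
    (fun l i => absurd i.2 (Finset.notMem_empty _))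
    (fun l => ⟨X l, by
      have := hcard l
      omega, hval l⟩)
  rw [Finset.card_empty] at hmain
  omega

end Pool.Agent.Q170.HL
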