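import Pool.Agent.Q170.RG.FG
import Pool.Agent.Q170.HL.Crit

/-!
The Hodge locus in the base of the members of one-parameter families over finitely generated fields
(helper file; the proof is that of `Pool.Agent.Q170.RG.fgMR` with the criterion
`Pool.Agent.Q170.HL.criterionH`).
-/

set_option autoImplicit false

namespace Pool.Agent.Q170.HL

open H294ZP UpperHalfPlane MvPolynomial Pool.Agent.W282.ZP Pool.Agent.Y910.Z
open Pool.Agent.TH526.ZL (spec)
open Pool.Agent.Q170.ZP (IndExp)
open Pool.Agent.Q170.RG (order int_up hom_lift)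
open Pool.Agent.Y152.RP.Fam (SpecialVariety SpecialVariety.locus evalAt OnB valueAt rel_of_locus)

theorem lform_map {Λ Λ' : Type} [CommRing Λ] [CommRing Λ'] (f : Λ →+* Λ') {N : ℕ}
    (s : Fin (N + 1) → ℤ) : MvPolynomial.map f (lform Λ s) = lform Λ' s := by
  rw [lform, lform, map_sum]
  refine Finset.sum_congr rfl fun j _ => ?_
  rw [map_mul, map_C, map_X, map_intCast]

/-- The orders of the zeros of the `c i` at the elements of the `D l` are positive, and independent
for every choice of elements of `m + 2` of the sets. -/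
def IndependentOrders {K : Subfield ℂ} {n M : ℕ} (m T : ℕ) (c : Fin n → Polynomial K)
    (D : Fin M → Finset ℂ) : Prop :=
  (∀ l, ∀ α ∈ D l, ∀ i, 0 < order (c i) α) ∧
  ∀ (f : Fin (m + 2) → Fin M) (α : Fin (m + 2) → ℂ), Function.Injective f → (∀ l, α l ∈ D (f l)) →
    IndExp T fun l i => order (c i) (α l)

/-- The points of the base which are mapped to special subvarieties, for the members with parameters in
finitely generated fields and rings. -/
theorem fgH (K : Subfield ℂ) (κ : Type) [Finite κ] (N n m M T : ℕ)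
    (G : κ → MvPolynomial (Fin (N + 1)) (Polynomial K)) (hG : ∀ l, ∃ e, (G l).IsHomogeneous e)
    (A B : Fin n → MvPolynomial (Fin (N + 1)) (Polynomial K)) (δ : Fin n → ℕ)
    (hA : ∀ i, (A i).IsHomogeneous (δ i)) (hB : ∀ i, (B i).IsHomogeneous (δ i))
    (R : Fin n → Polynomial (Polynomial K)) (hR : ∀ i, (R i).Monic)
    (hT : ∀ i u w, ((R i).coeff u).coeff w ≠ 0 → u ≤ T ∧ w ≤ T)
    (c : Fin n → Polynomial K) (D : Fin M → Finset ℂ)
    (hD : ∀ l, ∀ α ∈ D l, IsAlgebraic K α) (hind : IndependentOrders m T c D)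
    (h : Fin (m + 1) → Fin (N + 1) → ℤ)
    (hpos : ∀ l, ∀ α ∈ D l, ∀ (I : Finset (Fin n)) (J : Finset (Fin (m + 1))),
      I.card + J.card = m + 1 → ∀ y, OnB α G y →
      (∃ i ∈ I, eval₂ (evalAt K α) y (A i) * eval₂ (evalAt K α) y (B i) ≠ 0) ∨
      ∃ b ∈ J, ∑ j, (h b j : ℂ) * y j ≠ 0)
    (Γ : Finset ℂ) (hΓ : ∀ γ ∈ Γ, IsAlgebraic K γ) (F : Finset ℂ)
    (hF : ∀ z ∈ F, IsAlgebraic K z) (Good : ℂ → Prop)
    (hGood : ∀ t : ℂ, (∀ y, OnB t G y → ∀ x s : Fin n → ℂ,
      (∀ i, valueAt (R i) (s i) (x i) = 0 ∧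
        evalAt K t (c i) * eval₂ (evalAt K t) y (B i) * s i = eval₂ (evalAt K t) y (A i)) →
      ∀ (ρ : ℕ) (Z : SpecialVariety (algebraMap (Algebra.adjoin ℤ (Γ : Set ℂ)) ℂ) n ρ),
        x ∈ Z.locus → ∀ (j0 : Fin (N + 1)) (T : Finset (Fin (N + 1))),
        AlgebraicIndependent K (fun j : T => y j / y j0) → T.card + n ≤ ρ + m) → Good t) :
    ((∀ I : Finset (Fin M), M ≤ I.card + (m + 1) → 3 ≤ (I.biUnion D).card) →
      {t : ℂ | t ∈ Subfield.closure (F : Set ℂ) ∧ ¬ Good t}.Finite) ∧
    ((∀ I : Finset (Fin M), M ≤ I.card + (m + 1) → 2 ≤ (I.biUnion D).card) →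
      {t : ℂ | t ∈ Subring.closure (F : Set ℂ) ∧ ¬ Good t}.Finite) := by
  classical
  let kk := algebraicClosure K ℂ
  have hcl : IsAlgClosure K kk := inferInstance
  have hac : IsAlgClosed kk := hcl.isAlgClosed
  have hc0k : CharZero kk := inferInstance
  let φ : Polynomial K →+* Polynomial kk := Polynomial.mapRingHom (algebraMap K kk)
  have hev : ∀ (t : kk), (algebraMap kk ℂ).comp ((Polynomial.evalRingHom t).comp φ) =
      evalAt K (algebraMap kk ℂ t) := by
    intro t
    refine Polynomial.ringHom_ext (fun a => ?_) ?_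
    · simp only [φ, evalAt, RingHom.comp_apply, Polynomial.coe_mapRingHom, Polynomial.map_C,
        Polynomial.coe_evalRingHom, Polynomial.eval_C, AlgHom.toRingHom_eq_coe, RingHom.coe_coe,
        Polynomial.aeval_C]
      rfl
    · simp only [φ, evalAt, RingHom.comp_apply, Polynomial.coe_mapRingHom, Polynomial.map_X,
        Polynomial.coe_evalRingHom, Polynomial.eval_X, AlgHom.toRingHom_eq_coe, RingHom.coe_coe,
        Polynomial.aeval_X]
  have hspec : ∀ (t : kk) (P : MvPolynomial (Fin (N + 1)) (Polynomial K)) (y : Fin (N + 1) → ℂ),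
      aeval y (spec t (MvPolynomial.map φ P)) =
        eval₂ (evalAt K (algebraMap kk ℂ t)) y P := by
    intro t P y
    rw [spec, MvPolynomial.map_map, aeval_def, eval₂_map, hev]
  have hmult : ∀ (α : kk) (i : Fin n), (φ (c i)).rootMultiplicity α =
      order (c i) (algebraMap kk ℂ α) := by
    intro α i
    have h1 := Polynomial.eq_rootMultiplicity_map (p := φ (c i)) (f := algebraMap kk ℂ)
      (algebraMap kk ℂ).injective α
    rw [h1]
    simp only [φ, order, Polynomial.coe_mapRingHom, Polynomial.map_map]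
    rfl
  -- finite sets of algebraic numbers
  have hlift : ∀ S : Finset ℂ, (∀ z ∈ S, IsAlgebraic K z) → ∃ S' : Finset kk,
      (∀ z : kk, z ∈ S' ↔ algebraMap kk ℂ z ∈ S) ∧
      algebraMap kk ℂ '' (S' : Set kk) = (S : Set ℂ) := by
    intro S hS
    have hmem : ∀ z ∈ S, z ∈ algebraicClosure K ℂ := fun z hz =>
      mem_algebraicClosure_iff'.2 (hS z hz).isIntegral
    have h1 : ∀ z : kk, z ∈ (S.attach.image fun z => (⟨z.1, hmem z.1 z.2⟩ : kk)) ↔
        algebraMap kk ℂ z ∈ S := by
      intro z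
      constructor
      · intro hz
        obtain ⟨w, _, hw⟩ := Finset.mem_image.1 hz
        rw [← hw]
        exact w.2
      · intro hz
        exact Finset.mem_image.2 ⟨⟨z.1, hz⟩, Finset.mem_attach _ _, rfl⟩
    refine ⟨S.attach.image fun z => ⟨z.1, hmem z.1 z.2⟩, h1, ?_⟩
    ext z
    constructor
    · rintro ⟨w, hw, rfl⟩
      exact (h1 w).1 hw
    · intro hz
      exact ⟨⟨z, hmem z hz⟩, (h1 _).2 hz, rfl⟩
  obtain ⟨Γf, -, hΓf⟩ := hlift Γ hΓ
  let Γ' : Set kk := (Γf : Set kk)
  have hΓ' : algebraMap kk ℂ '' Γ' = (Γ : Set ℂ) := hΓf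
  obtain ⟨F', -, hF'⟩ := hlift F hF
  choose D' hD' hD'im using fun l => hlift (D l) (hD l)
  have hcard : ∀ I : Finset (Fin M), (I.biUnion D').card = (I.biUnion D).card := by
    intro I
    rw [← Finset.card_image_of_injective (I.biUnion D') (algebraMap kk ℂ).injective]
    congr 1
    ext z
    simp only [Finset.mem_image, Finset.mem_biUnion]
    constructor
    · rintro ⟨w, ⟨l, hl, hw⟩, rfl⟩
      exact ⟨l, hl, (hD' l w).1 hw⟩
    · rintro ⟨l, hl, hz⟩
      have h1 : z ∈ algebraMap kk ℂ '' (D' l : Set kk) := by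
        rw [hD'im]
        exact hz
      obtain ⟨w, hw, hwz⟩ := h1
      exact ⟨w, ⟨l, hl, hw⟩, hwz⟩
  -- the case without degenerate members
  by_cases hne : ∃ l, (D l).Nonempty
  swap
  · have h0 : ((Finset.univ : Finset (Fin M)).biUnion D).card = 0 := by
      rw [Finset.card_eq_zero, Finset.eq_empty_iff_forall_notMem]
      intro z hz
      obtain ⟨l, _, hl⟩ := Finset.mem_biUnion.1 hz
      exact hne ⟨l, z, hl⟩
    have h1 : M ≤ (Finset.univ : Finset (Fin M)).card + (m + 1) := by
      rw [Finset.card_univ, Fintype.card_fin]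
      omega
    refine ⟨fun h => ?_, fun h => ?_⟩
    all_goals
      exfalso
      have := h Finset.univ h1
      omega
  let Rt : Finset kk := Finset.univ.biUnion D'
  have hRt : ∀ α : kk, α ∈ Rt ↔ ∃ l, α ∈ D' l := by
    intro α
    simp only [Rt, Finset.mem_biUnion, Finset.mem_univ, true_and]
  let ρt : Fin Rt.card → kk := fun l => (Rt.equivFin.symm l : kk)
  have hρ : ∀ α ∈ Rt, ∃ l, ρt l = α := by
    intro α hα
    refine ⟨Rt.equivFin ⟨α, hα⟩, ?_⟩
    simp [ρt]
  have hρ' : ∀ l, ρt l ∈ Rt := fun l => (Rt.equivFin.symm l).2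
  have hc0 : ∀ i, φ (c i) ≠ 0 := by
    intro i h0
    obtain ⟨l, z, hz⟩ := hne
    have h2 : z ∈ algebraMap kk ℂ '' (D' l : Set kk) := by
      rw [hD'im]
      exact hz
    obtain ⟨α₀, hα₀, rfl⟩ := h2
    have h1 : 0 < order (c i) (algebraMap kk ℂ α₀) := hind.1 l _ hz i
    rw [← hmult, h0, Polynomial.rootMultiplicity_zero] at h1
    exact lt_irrefl _ h1
  have hlfk : ∀ (t : kk) (s : Fin (N + 1) → ℤ) (y : Fin (N + 1) → ℂ),
      aeval y (spec t (lform (Polynomial kk) s)) = ∑ j, (s j : ℂ) * y j := by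
    intro t s y
    rw [spec, lform_map, aeval_def, lform_eval]
  let Ah : Fin n ⊕ Fin (m + 1) → MvPolynomial (Fin (N + 1)) (Polynomial kk) :=
    Sum.elim (fun i => MvPolynomial.map φ (A i)) (fun b => lform (Polynomial kk) (h b))
  let Bh : Fin n ⊕ Fin (m + 1) → MvPolynomial (Fin (N + 1)) (Polynomial kk) :=
    Sum.elim (fun i => MvPolynomial.map φ (B i)) (fun _ => 1)
  let ch : Fin n ⊕ Fin (m + 1) → Polynomial kk := Sum.elim (fun i => φ (c i)) (fun _ => 1)
  obtain ⟨W₀, hW₀, hΓW₀, hρW₀, hnear⟩ := nearR (k := kk) (m := m) (M := Rt.card)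
    (fun i => MvPolynomial.map φ (G i)) Ah Bh (fun i => (R i).map φ) ch ρt
    (fun i => by
      rcases i with i | b
      · exact hc0 i
      · exact one_ne_zero)
    (fun l I hI y h1 h2 => by
      by_contra h0
      obtain ⟨l', hl'⟩ := (hRt _).1 (hρ' l)
      have h5 : I.toLeft.card + I.toRight.card = m + 1 := by
        rw [Finset.card_toLeft_add_card_toRight]
        exact hI
      rcases hpos l' _ ((hD' _ _).1 hl') I.toLeft I.toRight h5 y ⟨h0, fun i => by
        have h4 := h1 i
        rw [hspec] at h4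
        exact h4⟩ with ⟨i, hi, h3⟩ | ⟨b, hb, h3⟩
      · apply h3
        have h4 := h2 _ (Finset.mem_toLeft.1 hi)
        simp only [Ah, Bh, Sum.elim_inl] at h4
        rw [hspec, hspec] at h4
        exact h4
      · apply h3
        have h4 := h2 _ (Finset.mem_toRight.1 hb)
        simp only [Ah, Bh, Sum.elim_inr] at h4
        rw [hlfk, spec, map_one, map_one, mul_one] at h4
        exact h4)
    Γ' (Set.toFinite _)
  let W : Finset kk := hW₀.toFinset
  have hW : (W : Set kk) = W₀ := Set.Finite.coe_toFinset hW₀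
  -- the core
  have core : ∀ (t : kk), t ∉ Rt → (∃ f : Fin (m + 2) → Fin M,
      Function.Injective f ∧ ∀ l, ∃ a ∈ D' (f l), ¬ Bad (W : Set kk) t a) →
      Good (algebraMap kk ℂ t) := by
    rintro t htRt ⟨f, hf, hp⟩
    rw [hW] at hp
    choose α hα hbad using hp
    have hαRt : ∀ l, α l ∈ Rt := fun l => (hRt _).2 ⟨_, hα l⟩
    have hαW : ∀ l, α l ∈ W₀ := by
      intro l
      obtain ⟨l', hl'⟩ := hρ _ (hαRt l)
      rw [← hl']
      exact hρW₀ l'
    have htα : ∀ l, t ≠ α l := by
      intro l h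
      exact htRt (h ▸ hαRt l)
    choose 𝔭 h𝔭 hmem𝔭 using fun l => exists_max W₀ (hαW l) (htα l) (hbad l)
    obtain ⟨Λ, hΛ⟩ : ∃ Λ, Λ = Subring.closure (insert t W₀) := ⟨_, rfl⟩
    subst hΛ
    let Λ : Subring kk := Subring.closure (insert t W₀)
    have hWΛ : W₀ ⊆ (Λ : Set kk) := fun z hz => Subring.subset_closure (Set.mem_insert_of_mem _ hz)
    let t' : Λ := ⟨t, Subring.subset_closure (Set.mem_insert _ _)⟩
    let r' : Fin (m + 2) → Λ := fun l => ⟨α l, hWΛ (hαW l)⟩
    have hmem : ∀ l, t' - r' l ∈ 𝔭 l := fun l => hmem𝔭 l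
    obtain ⟨G', A', B', R', c', hG', hA', hB', hR', hc', hunit, hN⟩ := hnear Λ hWΛ
    have hsub : Function.Injective Λ.subtype := Subtype.val_injective
    have hsub1 : Function.Injective (Polynomial.mapRingHom Λ.subtype) :=
      Polynomial.map_injective _ hsub
    let i1 : Algebra Λ ℂ := ((algebraMap kk ℂ).comp Λ.subtype).toAlgebra
    have hmapΛ : ∀ z : Λ, algebraMap Λ ℂ z = algebraMap kk ℂ (z : kk) := fun z => rfl
    have htower : IsScalarTower Λ kk ℂ := IsScalarTower.of_algebraMap_eq fun z => rfl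
    have hinjC : Function.Injective (algebraMap Λ ℂ) := by
      intro a b h
      exact hsub ((algebraMap kk ℂ).injective h)
    -- the linear forms
    have hAb : ∀ b, A' (Sum.inr b) = lform (Polynomial Λ) (h b) := by
      intro b
      apply MvPolynomial.map_injective _ hsub1
      rw [hA', lform_map]
      rfl
    have hBb : ∀ b, B' (Sum.inr b) = 1 := by
      intro b
      apply MvPolynomial.map_injective _ hsub1
      rw [hB', map_one]
      rfl
    -- values
    have hval : ∀ (P : MvPolynomial (Fin (N + 1)) (Polynomial K))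
        (P' : MvPolynomial (Fin (N + 1)) (Polynomial Λ)),
        MvPolynomial.map (Polynomial.mapRingHom Λ.subtype) P' = MvPolynomial.map φ P →
        ∀ y : Fin (N + 1) → ℂ, aeval y (spec t' P') =
          eval₂ (evalAt K (algebraMap kk ℂ t)) y P := by
      intro P P' hP y
      rw [← hspec t P y, ← hP]
      have h1 := map_spec P' _ rfl t'
      change _ = aeval y (spec (t' : kk) _)
      rw [← h1, aeval_def, aeval_def, eval₂_map]
      rfl
    have hcval : ∀ i, algebraMap Λ ℂ ((c' (Sum.inl i)).eval t') =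
        evalAt K (algebraMap kk ℂ t) (c i) := by
      intro i
      have h1 : (((c' (Sum.inl i)).eval t' : Λ) : kk) = (φ (c i)).eval t := by
        have h2 : (c' (Sum.inl i)).map Λ.subtype = φ (c i) := hc' (Sum.inl i)
        rw [← h2, Polynomial.eval_map]
        exact (Polynomial.eval₂_at_apply Λ.subtype t').symm
      rw [hmapΛ, h1, ← hev t]
      rfl
    have hintΓ : ∀ z, (algebraMap (Algebra.adjoin ℤ (Γ : Set ℂ)) ℂ).IsIntegralElem z →
        IsIntegral Λ z := by
      intro z hz
      refine int_up hinjC (Γ : Set ℂ) (fun g hg => ?_) hz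
      rw [← hΓ'] at hg
      obtain ⟨g', hg', rfl⟩ := hg
      exact ⟨⟨g', hWΛ (hΓW₀ hg')⟩, rfl⟩
    refine hGood _ ?_
    intro y hy x s hxy ρ Z hxZ j0 T' hT'
    have hTk : AlgebraicIndependent kk (fun j : T' => y j / y j0) := hT'.extendScalars kk
    have hTL : AlgebraicIndependent (algebraicClosure K ℂ).toSubfield
        (fun j : T' => y j / y j0) := hTk
    refine criterionH (Λ := Λ) hinjC (algebraicClosure K ℂ).toSubfield
      (fun a => ((a : kk) : algebraicClosure K ℂ).2) (m := m)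
      (fun i => spec t' (G' i)) ?_ (fun i => spec t' (A' (Sum.inl i)))
      (fun i => C ((c' (Sum.inl i)).eval t') * spec t' (B' (Sum.inl i))) δ ?_
      R' ?_ (T := T) ?_ 𝔭 h𝔭 (fun _ i => spec t' (B' (Sum.inl i))) ?_ (fun _ => h) ?_ ?_
      (fun l => t' - r' l) hmem ?_
      (fun l i => (φ (c i)).rootMultiplicity (α l)) ?_ ?_ Z.cls
      (fun i => (Z.mat i).det.toNat) x s ?_ ?_
      (fun i j l hi hj => by
        have h5 := rel_of_locus Z hxZ i j l hi hj
        rw [Int.toNat_mul (Z.det_pos i).le (Z.det_pos j).le] at h5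
        exact h5) ?_ y hy.1 ?_ ?_ j0 T' hTL
    · intro i
      obtain ⟨e, he⟩ := hG i
      exact ⟨e, (hom_lift _ (hG' i) hsub1 (he.map φ)).map _⟩
    · intro i
      exact (hom_lift _ (hA' (Sum.inl i)) hsub1 ((hA i).map φ)).map _
    · intro i
      refine Polynomial.monic_of_injective hsub1 ?_
      rw [hR' i]
      exact (hR i).map _
    · intro i u w h0
      refine hT i u w fun h1 => h0 ?_
      apply hsub
      have h2 := congrArg (fun P => (P.coeff u).coeff w) (hR' i)
      simp only [Polynomial.coeff_map, Polynomial.coe_mapRingHom, φ] at h2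
      rw [h2, h1, map_zero, map_zero]
    · intro l i
      exact (hom_lift _ (hB' (Sum.inl i)) hsub1 ((hB i).map φ)).map _
    · intro l F₁ _ φ₁ hker I J hIJ y' hy0 hyG
      obtain ⟨l', hl'⟩ := hρ _ (hαRt l)
      have h1 := hmem l
      rw [← hker, RingHom.mem_ker] at h1
      obtain ⟨i, hi, h2⟩ := (hN l' (r' l) t' hl'.symm).1 F₁ φ₁ h1 (I.disjSum J)
        (by rw [Finset.card_disjSum]; exact hIJ) y' hy0 hyG
      rcases i with i | b
      · rw [Finset.inl_mem_disjSum] at hi
        exact Or.inl ⟨i, hi, h2⟩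
      · rw [Finset.inr_mem_disjSum] at hi
        refine Or.inr ⟨b, hi, ?_⟩
        rw [hAb, hBb, spec, spec, lform_map, map_one, lform_eval, eval₂_one, mul_one] at h2
        exact h2
    · intro l i u w h0 h1
      exact (h𝔭 l).ne_top (Ideal.eq_top_of_isUnit_mem _ h1 (hunit i u w h0))
    · intro l h0
      have h1 : t' - r' l = 0 := h0
      exact htα l (congrArg Subtype.val (sub_eq_zero.1 h1))
    · have h1 := hind.2 f (fun l => algebraMap kk ℂ (α l)) hf (fun l => (hD' _ _).1 (hα l))
      have h2 : (fun l i => (φ (c i)).rootMultiplicity (α l)) =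
          fun l i => order (c i) (algebraMap kk ℂ (α l)) := by
        funext l i
        exact hmult _ _
      rw [h2]
      exact h1
    · intro l i
      obtain ⟨l', hl'⟩ := hρ _ (hαRt l)
      obtain ⟨b, hb1, hb2⟩ := (hN l' (r' l) t' hl'.symm).2 (𝔭 l) (h𝔭 l) (hmem l) (Sum.inl i)
      refine ⟨1, b, fun h1 => (h𝔭 l).ne_top ((Ideal.eq_top_iff_one _).2 h1), hb1, ?_⟩
      rw [C_1, one_mul, hb2, hl']
      rfl
    · intro i
      have := Z.det_pos i
      omega
    · intro i hi
      obtain ⟨z, hz⟩ := hxZ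
      have e3 : x i = Z.const i := (hz i).1 hi
      rw [e3]
      rcases Z.allowed i with ⟨τ, hτ, hc⟩ | h
      · rw [hc]
        exact (singular_modulus_integral τ hτ).tower_top
      · exact hintΓ _ h
    · intro i
      have h1 := (hxy i).1
      rw [valueAt] at h1
      have h2 : (R' i).map (Polynomial.mapRingHom Λ.subtype) = (R i).map φ := hR' i
      have h3 : ((Polynomial.aeval (x i) : Polynomial kk →ₐ[kk] ℂ).toRingHom).comp φ =
          (Polynomial.aeval (x i) : Polynomial K →ₐ[K] ℂ).toRingHom := by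
        ext z
        · simp [φ]
        · simp [φ]
      have h4 : ((Polynomial.aeval (x i) : Polynomial kk →ₐ[kk] ℂ).toRingHom).comp
          (Polynomial.mapRingHom Λ.subtype) =
          (Polynomial.aeval (x i) : Polynomial Λ →ₐ[Λ] ℂ).toRingHom := by
        refine Polynomial.ringHom_ext (fun a => ?_) ?_
        · simp only [RingHom.comp_apply, Polynomial.coe_mapRingHom, Polynomial.map_C,
            AlgHom.toRingHom_eq_coe, RingHom.coe_coe, Polynomial.aeval_C]
          rfl
        · simp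
      rw [← h3, ← Polynomial.eval₂_map, ← h2, Polynomial.eval₂_map, h4] at h1
      exact h1
    · intro i
      rw [hval _ _ (hG' i)]
      exact hy.2 i
    · intro i
      rw [map_mul, aeval_C, hval _ _ (hA' (Sum.inl i)), hval _ _ (hB' (Sum.inl i)), hcval]
      exact (hxy i).2
  -- the parameters lie in the algebraic closure
  have hfield : ∀ t ∈ Subfield.closure (F : Set ℂ), ∃ t' : kk,
      t' ∈ Subfield.closure (F' : Set kk) ∧ algebraMap kk ℂ t' = t := by
    intro t ht
    rw [← hF', ← RingHom.map_field_closure] at ht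
    exact Subfield.mem_map.1 ht
  have hring : ∀ t ∈ Subring.closure (F : Set ℂ), ∃ t' : kk,
      t' ∈ Subring.closure (F' : Set kk) ∧ algebraMap kk ℂ t' = t := by
    intro t ht
    rw [← hF', ← RingHom.map_closure] at ht
    exact Subring.mem_map.1 ht
  let E : Set kk := {t | t ∉ Rt ∧ ¬ Good (algebraMap kk ℂ t)}
  refine ⟨fun hM => ?_, fun hM => ?_⟩
  · have h1 := finite_field (L := m + 1) W F' D'
      (fun I hI => (hcard I).symm ▸ hM I hI) E (fun t ht h => ht.2 (core t ht.1 h))
    refine ((h1.union Rt.finite_toSet).image (algebraMap kk ℂ)).subset ?_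
    rintro t ⟨ht, ht'⟩
    obtain ⟨t', ht1, rfl⟩ := hfield t ht
    by_cases h2 : t' ∈ Rt
    · exact ⟨t', Or.inr h2, rfl⟩
    · exact ⟨t', Or.inl ⟨ht1, h2, ht'⟩, rfl⟩
  · have h1 := finite_ring (L := m + 1) W F' D'
      (fun I hI => (hcard I).symm ▸ hM I hI) E (fun t ht h => ht.2 (core t ht.1 h))
    refine ((h1.union Rt.finite_toSet).image (algebraMap kk ℂ)).subset ?_
    rintro t ⟨ht, ht'⟩
    obtain ⟨t', ht1, rfl⟩ := hring t ht
    by_cases h2 : t' ∈ Rt
    · exact ⟨t', Or.inr h2, rfl⟩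
    · exact ⟨t', Or.inl ⟨ht1, h2, ht'⟩, rfl⟩

end Pool.Agent.Q170.HL
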