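import Pool.Agent.Q170.HL.FG
import Pool.Agent.Q170.ZP.MultiCount
import Pool.Agent.W282.SI.Good

/-!
# The Hodge locus of members of families of products of elliptic schemes: definitions and proofs
-/

set_option autoImplicit false

namespace Pool.Agent.Q170.HL.Hod

open MvPolynomial H294ZP UpperHalfPlane Pool.Agent.W282.ZP
open Pool.Agent.Q170.ZP (IndExp)
open Pool.Agent.Q170.HL (IndependentOrders)
open Pool.Agent.Y152.RP.Fam (SpecialVariety SpecialVariety.locus valueAt)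

/-- The value of polynomials in the parameters at `t`. -/
noncomputable def evalMany (K : Subfield ℂ) {r : ℕ} (t : Fin r → ℂ) :
    MvPolynomial (Fin r) K →+* ℂ :=
  (aeval t : MvPolynomial (Fin r) K →ₐ[K] ℂ).toRingHom

/-- The value of polynomials in one parameter at `t`. -/
noncomputable def evalOne (K : Subfield ℂ) (t : ℂ) : Polynomial K →+* ℂ :=
  (Polynomial.aeval t : Polynomial K →ₐ[K] ℂ).toRingHom

/-- The value at the point `y` of a form with coefficients in a ring of polynomials in the parameters;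
`φ` is the evaluation of these polynomials at the value `t` of the parameters. -/
noncomputable def val {Λ : Type} [CommRing Λ] (φ : Λ →+* ℂ) {N : ℕ} (y : Fin (N + 1) → ℂ)
    (F : MvPolynomial (Fin (N + 1)) Λ) : ℂ :=
  eval₂ φ y F

/-- `y` is a vector of homogeneous coordinates of a point of the member `B_t`. -/
def OnB {Λ : Type} [CommRing Λ] (φ : Λ →+* ℂ) {N : ℕ} {κ : Type}
    (G : κ → MvPolynomial (Fin (N + 1)) Λ) (y : Fin (N + 1) → ℂ) : Prop :=
  y ≠ 0 ∧ ∀ a, val φ y (G a) = 0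

/-- No point of `B_t` is on `m + 1` of the divisors of the forms `F i` and of the hyperplanes `h b`. -/
def InGeneralPosition {Λ : Type} [CommRing Λ] (φ : Λ →+* ℂ) {N n m : ℕ} {κ : Type}
    (G : κ → MvPolynomial (Fin (N + 1)) Λ) (F : Fin n → MvPolynomial (Fin (N + 1)) Λ)
    (h : Fin (m + 1) → Fin (N + 1) → ℤ) : Prop :=
  ∀ (I : Finset (Fin n)) (J : Finset (Fin (m + 1))), I.card + J.card = m + 1 → ∀ y, OnB φ G y →
    (∃ i ∈ I, val φ y (F i) ≠ 0) ∨ ∃ b ∈ J, ∑ j, (h b j : ℂ) * y j ≠ 0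

/-- The points `(y, x)` of the base of the family of products of elliptic curves with level
structures: `y` is a point of `B_t`, and there are values `s_i` of the modular functions at points of
the modular curves above the `x_i` such that `P_i (t; y) s_i = A_i (t; y)`. -/
def total {Λ : Type} [CommRing Λ] (φ : Λ →+* ℂ) {K : Subfield ℂ} {N n : ℕ} {κ : Type}
    (G : κ → MvPolynomial (Fin (N + 1)) Λ) (A P : Fin n → MvPolynomial (Fin (N + 1)) Λ)
    (R : Fin n → Polynomial (Polynomial K)) : Set ((Fin (N + 1) → ℂ) × (Fin n → ℂ)) :=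
  {q | OnB φ G q.1 ∧ ∃ s : Fin n → ℂ, ∀ i, valueAt (R i) (s i) (q.2 i) = 0 ∧
    val φ q.1 (P i) * s i = val φ q.1 (A i)}

/-- The points `(y, x)`, where `y` is a point of the base `S_t` of the Weierstrass families
`y'² = x'³ + a_i x' + b_i` and the `x_i` are the `j`-invariants of the fibres at `y`. -/
def weierstrass {Λ : Type} [CommRing Λ] (φ : Λ →+* ℂ) {N n : ℕ} {κ : Type}
    (G : κ → MvPolynomial (Fin (N + 1)) Λ) (a b : Fin n → MvPolynomial (Fin (N + 1)) Λ) :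
    Set ((Fin (N + 1) → ℂ) × (Fin n → ℂ)) :=
  {q | OnB φ G q.1 ∧ ∀ i, 4 * val φ q.1 (a i) ^ 3 + 27 * val φ q.1 (b i) ^ 2 ≠ 0 ∧
    q.2 i = 6912 * val φ q.1 (a i) ^ 3 / (4 * val φ q.1 (a i) ^ 3 + 27 * val φ q.1 (b i) ^ 2)}

/-- All components of `Φ⁻¹ (Z)`, for all special subvarieties `Z` of dimension `ρ`, have dimension at
most `m - (n - ρ)`. Here `S` is the set of the points `(y, x)`, `x = Φ (y)`. This is said for the
points (at most so many of the ratios of the coordinates of `y` are algebraically independent over `K`)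
and for the affine cones `W` over irreducible closed sets (of dimension at most `m - (n - ρ) + 1`), the
general points of which are mapped to `Z`. -/
def HodgeTypical {Λ : Type} [CommRing Λ] (f : Λ →+* ℂ) (K : Subfield ℂ) {N n : ℕ} (m : ℕ)
    (S : Set ((Fin (N + 1) → ℂ) × (Fin n → ℂ))) : Prop :=
  ∀ (ρ : ℕ) (Z : SpecialVariety f n ρ),
    (∀ y x, (y, x) ∈ S → x ∈ Z.locus → ∀ (j0 : Fin (N + 1)) (T : Finset (Fin (N + 1))),
      AlgebraicIndependent K (fun j : T => y j / y j0) → T.card + n ≤ ρ + m) ∧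
    ∀ (W : Set (Fin (N + 1) → ℂ)) (g : MvPolynomial (Fin (N + 1)) ℂ), zcl W ⊆ W →
      (idealOf W).IsPrime → g ∉ idealOf W →
      (∀ y ∈ W, eval y g ≠ 0 → ∃ x, (y, x) ∈ S ∧ x ∈ Z.locus) →
      zdim W + (n : Cardinal) ≤ (ρ : Cardinal) + (m : Cardinal) + 1

/-- The property `Good` holds for all integral parameters near to the hypersurfaces `D_l = 0`, in
particular for one hundred percent of the integral parameters. -/
def AlmostAll {r m : ℕ} (D E : Fin (m + 2) → MvPolynomial (Fin r) ℤ)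
    (Good : (Fin r → ℤ) → Prop) : Prop :=
  (∃ Q₀ : ℕ, ∀ t : Fin r → ℤ,
    (∀ l, ∃ p : ℕ, p.Prime ∧ Q₀ < p ∧ (p : ℤ) ∣ eval t (D l) ∧ ¬ (p : ℤ) ∣ eval t (E l)) →
    Good t) ∧
  ((∀ l, 0 < (D l).totalDegree ∧ IsRelPrime (D l) (E l)) → ∀ ε : ℝ, 0 < ε →
    ∃ C : ℝ, 0 < C ∧ ∀ H : ℕ, 1 ≤ H →
      (({t : Fin r → ℤ | (∀ j, |t j| ≤ H) ∧ ¬ Good t}.ncard : ℕ) : ℝ) ≤
        C * (H : ℝ) ^ ((r : ℝ) - 1 + ε))

/-- The property `Good` holds for all but finitely many elements of the field generated by any finite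
set of numbers algebraic over `K`, or of the ring generated by it, if there are sufficiently many
degenerate members. -/
def AllButFinitelyMany (K : Subfield ℂ) (m : ℕ) {M : ℕ} (D : Fin M → Finset ℂ)
    (Good : ℂ → Prop) : Prop :=
  ∀ F : Finset ℂ, (∀ z ∈ F, IsAlgebraic K z) →
    ((∀ I : Finset (Fin M), M ≤ I.card + (m + 1) → 3 ≤ (I.biUnion D).card) →
      {t : ℂ | t ∈ Subfield.closure (F : Set ℂ) ∧ ¬ Good t}.Finite) ∧
    ((∀ I : Finset (Fin M), M ≤ I.card + (m + 1) → 2 ≤ (I.biUnion D).card) →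
      {t : ℂ | t ∈ Subring.closure (F : Set ℂ) ∧ ¬ Good t}.Finite)

theorem almostAll_of {r m : ℕ} {D E : Fin (m + 2) → MvPolynomial (Fin r) ℤ}
    {Good : (Fin r → ℤ) → Prop} (h : ∃ Q₀ : ℕ, ∀ t : Fin r → ℤ,
      (∀ l, ∃ p : ℕ, p.Prime ∧ Q₀ < p ∧ (p : ℤ) ∣ eval t (D l) ∧ ¬ (p : ℤ) ∣ eval t (E l)) →
      Good t) : AlmostAll D E Good := by
  classical
  refine ⟨h, fun hDE ε hε => ?_⟩
  obtain ⟨Q, hQ⟩ := h
  choose C hC hcount using fun l =>
    Pool.Agent.Q170.ZP.Count.card_bad (D l) (E l) (hDE l).1 (hDE l).2 Q ε hε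
  refine ⟨∑ l, C l, Finset.sum_pos (fun l _ => hC l) ⟨0, Finset.mem_univ _⟩, fun H hH => ?_⟩
  have h1 : {t : Fin r → ℤ | (∀ j, |t j| ≤ H) ∧ ¬ Good t} ⊆
      ((Finset.univ.biUnion fun l => (Pool.Agent.Q170.ZP.Count.box r H).filter fun t =>
        ¬ ∃ p : ℕ, p.Prime ∧ Q < p ∧ (p : ℤ) ∣ eval t (D l) ∧ ¬ (p : ℤ) ∣ eval t (E l) :
          Finset (Fin r → ℤ)) : Set (Fin r → ℤ)) := by
    rintro t ⟨ht, hbad⟩
    by_contra hcon
    refine hbad (hQ t fun l => ?_)
    by_contra hl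
    refine hcon ?_
    rw [Finset.mem_coe, Finset.mem_biUnion]
    exact ⟨l, Finset.mem_univ l, Finset.mem_filter.2
      ⟨Pool.Agent.Q170.ZP.Count.mem_box.2 ht, hl⟩⟩
  have h2 := (Set.ncard_le_ncard h1 (Finset.finite_toSet _)).trans
    ((Set.ncard_coe_finset _).le.trans Finset.card_biUnion_le)
  calc ((({t : Fin r → ℤ | (∀ j, |t j| ≤ H) ∧ ¬ Good t}).ncard : ℕ) : ℝ)
      ≤ ((∑ l, ((Pool.Agent.Q170.ZP.Count.box r H).filter fun t =>
        ¬ ∃ p : ℕ, p.Prime ∧ Q < p ∧ (p : ℤ) ∣ eval t (D l) ∧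
          ¬ (p : ℤ) ∣ eval t (E l)).card : ℕ) : ℝ) := by exact_mod_cast h2
    _ = ∑ l, (((Pool.Agent.Q170.ZP.Count.box r H).filter fun t =>
        ¬ ∃ p : ℕ, p.Prime ∧ Q < p ∧ (p : ℤ) ∣ eval t (D l) ∧
          ¬ (p : ℤ) ∣ eval t (E l)).card : ℝ) := by push_cast; rfl
    _ ≤ ∑ l, C l * (H : ℝ) ^ ((r : ℝ) - 1 + ε) := Finset.sum_le_sum fun l _ => hcount l H hH
    _ = (∑ l, C l) * (H : ℝ) ^ ((r : ℝ) - 1 + ε) := by rw [Finset.sum_mul]

/-- From points to irreducible closed sets. -/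
theorem hodgeTypical_of {Λ : Type} [CommRing Λ] (f : Λ →+* ℂ) (K : Subfield ℂ) [Countable K]
    {N n m : ℕ} (S : Set ((Fin (N + 1) → ℂ) × (Fin n → ℂ)))
    (h : ∀ (ρ : ℕ) (Z : SpecialVariety f n ρ),
      ∀ y x, (y, x) ∈ S → x ∈ Z.locus → ∀ (j0 : Fin (N + 1)) (T : Finset (Fin (N + 1))),
      AlgebraicIndependent K (fun j : T => y j / y j0) → T.card + n ≤ ρ + m) :
    HodgeTypical f K m S := by
  classical
  intro ρ Z
  refine ⟨h ρ Z, ?_⟩
  intro W g hcl hprime hg hW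
  obtain ⟨y, hyW, hyg, T, hT, hdim⟩ := Pool.Agent.W282.SI.generic_dim' K W hprime
    (β := Unit) (fun _ => g) (fun _ => hg)
  obtain ⟨x, hx, hxZ⟩ := hW y (hcl hyW) (hyg ())
  have key : T.card + n ≤ ρ + m + 1 := by
    rcases T.eq_empty_or_nonempty with rfl | ⟨j0, hj0⟩
    · have h1 := h ρ Z y x hx hxZ 0 ∅ (by
        refine (algebraicIndependent_empty_type_iff (R := K)).2 ?_
        exact (algebraMap K ℂ).injective)
      rw [Finset.card_empty] at h1 ⊢
      omega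
    · have h1 := h ρ Z y x hx hxZ j0 (T.erase j0)
        (Pool.Agent.Q170.HL.ratio_ind y T hT hj0)
      rw [Finset.card_erase_of_mem hj0] at h1
      have h2 := Finset.card_pos.2 ⟨j0, hj0⟩
      omega
  calc zdim W + (n : Cardinal) ≤ (T.card : Cardinal) + (n : Cardinal) := by gcongr
    _ = ((T.card + n : ℕ) : Cardinal) := by push_cast; rfl
    _ ≤ ((ρ + m + 1 : ℕ) : Cardinal) := by exact_mod_cast key
    _ = (ρ : Cardinal) + (m : Cardinal) + 1 := by push_cast; rfl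

/-- The general form of the theorem for several parameters. -/
theorem general (K : Subfield ℂ) [Countable K] (κ : Type) [Finite κ] (r N n m T : ℕ)
    (G : κ → MvPolynomial (Fin (N + 1)) (MvPolynomial (Fin r) K))
    (hG : ∀ a, ∃ e, (G a).IsHomogeneous e) (D E : Fin (m + 2) → MvPolynomial (Fin r) ℤ)
    (h : Fin (m + 2) → Fin (m + 1) → Fin (N + 1) → ℤ) (e : Fin (m + 2) → Fin n → ℕ)
    (hind : IndExp T e) (Γ : Finset ℂ) (hΓ : ∀ γ ∈ Γ, γ ∈ K)
    (A P : Fin n → MvPolynomial (Fin (N + 1)) (MvPolynomial (Fin r) K)) (δ : Fin n → ℕ)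
    (hA : ∀ i, (A i).IsHomogeneous (δ i)) (R : Fin n → Polynomial (Polynomial K))
    (hR : ∀ i, (R i).Monic)
    (hT : ∀ i u w, ((R i).coeff u).coeff w ≠ 0 → u ≤ T ∧ w ≤ T)
    (U : Fin (m + 2) → Fin n → MvPolynomial (Fin (N + 1)) (MvPolynomial (Fin r) K))
    (hU : ∀ l i, (U l i).IsHomogeneous (δ i))
    (hP : ∀ l i, P i = C (MvPolynomial.map (Int.castRingHom K) (D l)) ^ e l i * U l i)
    (hpos : ∀ l (t : Fin r → ℂ), aeval t (D l) = 0 → aeval t (E l) ≠ 0 →
      InGeneralPosition (evalMany K t) G (fun i => A i * U l i) (h l)) :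
    AlmostAll D E fun t => HodgeTypical (algebraMap (Algebra.adjoin ℤ (Γ : Set ℂ)) ℂ) K m
      (total (evalMany K fun j => (t j : ℂ)) G A P R) := by
  classical
  refine almostAll_of ?_
  obtain ⟨Q, hQ⟩ := Pool.Agent.Q170.HL.mainP K κ r N n m T G hG A P δ hA R hR hT D E U hU e hind hP
    h (fun l t hD hE I hI y hy => by
      have h1 : I.toLeft.card + I.toRight.card = m + 1 := by
        rw [Finset.card_toLeft_add_card_toRight]
        exact hI
      rcases hpos l t hD hE I.toLeft I.toRight h1 y hy with ⟨i, hi, h2⟩ | ⟨b, hb, h2⟩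
      · refine ⟨Sum.inl i, Finset.mem_toLeft.1 hi, ?_⟩
        rw [Pool.Agent.Q170.HL.divs, Sum.elim_inl]
        exact h2
      · refine ⟨Sum.inr b, Finset.mem_toRight.1 hb, ?_⟩
        rw [Pool.Agent.Q170.HL.divs_inr]
        exact h2) Γ hΓ
  refine ⟨Q, fun t ht => ?_⟩
  refine hodgeTypical_of _ K _ ?_
  rintro ρ Z y x ⟨hy, s, hs⟩ hxZ j0 T' hT'
  exact hQ t ht y hy x s hs ρ Z hxZ j0 T' hT'

/-- The general form of the theorem for finitely generated fields. -/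
theorem generalF (K : Subfield ℂ) [Countable K] (κ : Type) [Finite κ] (N n m M T : ℕ)
    (G : κ → MvPolynomial (Fin (N + 1)) (Polynomial K))
    (hG : ∀ a, ∃ e, (G a).IsHomogeneous e) (D : Fin M → Finset ℂ)
    (hD : ∀ l, ∀ α ∈ D l, IsAlgebraic K α) (c : Fin n → Polynomial K)
    (hind : IndependentOrders m T c D)
    (h : Fin (m + 1) → Fin (N + 1) → ℤ) (Γ : Finset ℂ) (hΓ : ∀ γ ∈ Γ, IsAlgebraic K γ)
    (A P U : Fin n → MvPolynomial (Fin (N + 1)) (Polynomial K)) (δ : Fin n → ℕ)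
    (hA : ∀ i, (A i).IsHomogeneous (δ i)) (hU : ∀ i, (U i).IsHomogeneous (δ i))
    (hP : ∀ i, P i = C (c i) * U i) (R : Fin n → Polynomial (Polynomial K))
    (hR : ∀ i, (R i).Monic)
    (hT : ∀ i u w, ((R i).coeff u).coeff w ≠ 0 → u ≤ T ∧ w ≤ T)
    (hpos : ∀ l, ∀ α ∈ D l, InGeneralPosition (evalOne K α) G (fun i => A i * U i) h) :
    AllButFinitelyMany K m D fun t =>
      HodgeTypical (algebraMap (Algebra.adjoin ℤ (Γ : Set ℂ)) ℂ) K m
        (total (evalOne K t) G A P R) := by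
  classical
  intro F hF
  refine Pool.Agent.Q170.HL.fgH K κ N n m M T G hG A U δ hA hU R hR hT c D hD hind h
    (fun l α hα I J hIJ y hy => ?_) Γ hΓ F hF _ (fun t ht => ?_)
  · rcases hpos l α hα I J hIJ y hy with ⟨i, hi, h2⟩ | h2
    · refine Or.inl ⟨i, hi, ?_⟩
      rw [val, eval₂_mul] at h2
      exact h2
    · exact Or.inr h2
  · refine hodgeTypical_of _ K _ ?_
    rintro ρ Z y x ⟨hy, s, hs⟩ hxZ j0 T' hT'
    refine ht y hy x s (fun i => ⟨(hs i).1, ?_⟩) ρ Z hxZ j0 T' hT'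
    have h2 := (hs i).2
    rw [hP i, val, eval₂_mul, eval₂_C] at h2
    exact h2

section Weierstrass

variable {K : Subfield ℂ} {Λ : Type} [CommRing Λ] {N n : ℕ} {κ : Type}

/-- the polynomial of the `j`-invariant -/
noncomputable def Rj (K : Subfield ℂ) (n : ℕ) : Fin n → Polynomial (Polynomial K) :=
  fun _ => Polynomial.X - Polynomial.C Polynomial.X

theorem Rj_monic (i : Fin n) : (Rj K n i).Monic := Polynomial.monic_X_sub_C _

theorem Rj_T (i : Fin n) (u w : ℕ) (h0 : ((Rj K n i).coeff u).coeff w ≠ 0) : u ≤ 1 ∧ w ≤ 1 := by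
  simp only [Rj, Polynomial.coeff_sub, Polynomial.coeff_X, Polynomial.coeff_C] at h0
  constructor
  · by_contra hu
    push Not at hu
    apply h0
    rw [if_neg (by omega), if_neg (by omega), sub_self]
  · by_contra hw
    push Not at hw
    apply h0
    split_ifs <;>
      simp [Polynomial.coeff_X, Polynomial.coeff_one, show ¬ 1 = w by omega,
        show ¬ w = 0 by omega]

theorem val_Rj (i : Fin n) (s x : ℂ) : valueAt (Rj K n i) s x = s - x := by
  simp [valueAt, Rj]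

theorem val_disc (φ : Λ →+* ℂ) (y : Fin (N + 1) → ℂ) (a b : MvPolynomial (Fin (N + 1)) Λ) :
    val φ y (4 * a ^ 3 + 27 * b ^ 2) = 4 * val φ y a ^ 3 + 27 * val φ y b ^ 2 := by
  simp only [val, ← coe_eval₂Hom, map_add, map_mul, map_pow, map_ofNat]

theorem val_num (φ : Λ →+* ℂ) (y : Fin (N + 1) → ℂ) (a : MvPolynomial (Fin (N + 1)) Λ) :
    val φ y (C ((6912 : ℤ) : Λ) * a ^ 3) = 6912 * val φ y a ^ 3 := by
  simp only [val, eval₂_mul, eval₂_pow, map_intCast]
  norm_num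

theorem hom_num (a : MvPolynomial (Fin (N + 1)) Λ) (w : ℕ) (ha : a.IsHomogeneous (4 * w)) :
    (C ((6912 : ℤ) : Λ) * a ^ 3).IsHomogeneous (12 * w) := by
  have h6912 : (C ((6912 : ℤ) : Λ) : MvPolynomial (Fin (N + 1)) Λ).IsHomogeneous 0 :=
    isHomogeneous_C _ _
  have h2 := h6912.mul (ha.pow 3)
  rwa [zero_add, show 4 * w * 3 = 12 * w by ring] at h2

theorem weierstrass_sub (φ : Λ →+* ℂ) (G : κ → MvPolynomial (Fin (N + 1)) Λ)
    (a b : Fin n → MvPolynomial (Fin (N + 1)) Λ) :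
    weierstrass φ G a b ⊆ total φ G (fun i => C ((6912 : ℤ) : Λ) * a i ^ 3)
      (fun i => 4 * a i ^ 3 + 27 * b i ^ 2) (Rj K n) := by
  rintro q ⟨hq, hx⟩
  refine ⟨hq, q.2, fun i => ⟨?_, ?_⟩⟩
  · exact (val_Rj i _ _).trans (sub_self _)
  · rw [val_disc, val_num, (hx i).2]
    have h2 := (hx i).1
    field_simp

theorem HodgeTypical.mono {Λ' : Type} [CommRing Λ'] {f : Λ' →+* ℂ} {m : ℕ}
    {S S' : Set ((Fin (N + 1) → ℂ) × (Fin n → ℂ))} (h : S ⊆ S')
    (hS : HodgeTypical f K m S') : HodgeTypical f K m S := by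
  intro ρ Z
  refine ⟨fun y x hyx => (hS ρ Z).1 y x (h hyx), fun W g hcl hp hg hW =>
    (hS ρ Z).2 W g hcl hp hg fun y hy hyg => ?_⟩
  obtain ⟨x, hx, hxZ⟩ := hW y hy hyg
  exact ⟨x, h hx, hxZ⟩

theorem pos_num (φ : Λ →+* ℂ) {m : ℕ} (G : κ → MvPolynomial (Fin (N + 1)) Λ)
    (a U : Fin n → MvPolynomial (Fin (N + 1)) Λ) (h : Fin (m + 1) → Fin (N + 1) → ℤ)
    (hpos : InGeneralPosition φ G (fun i => a i * U i) h) :
    InGeneralPosition φ G (fun i => C ((6912 : ℤ) : Λ) * a i ^ 3 * U i) h := by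
  intro I J hIJ y hy
  rcases hpos I J hIJ y hy with ⟨i, hi, h2⟩ | h2
  · refine Or.inl ⟨i, hi, ?_⟩
    simp only [val, eval₂_mul, eval₂_pow, map_intCast] at h2 ⊢
    intro h3
    rw [mul_eq_zero, mul_eq_zero] at h3
    rcases h3 with (h3 | h3) | h3
    · norm_num at h3
    · exact h2 (by rw [pow_eq_zero_iff (by norm_num)] at h3; rw [h3, zero_mul])
    · exact h2 (by rw [h3, mul_zero])
  · exact Or.inr h2

end Weierstrass

end Pool.Agent.Q170.HL.Hod
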