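import Pool.Agent.Q170.HL.Rank
import Pool.Agent.Q170.ZP.MultiFam

/-!
The Hodge locus in the base of families of varieties with maps to products of modular curves, with
several parameters, which degenerate along hypersurfaces (helper file).
-/

set_option autoImplicit false

namespace Pool.Agent.Q170.HL

open H294ZP UpperHalfPlane MvPolynomial Pool.Agent.W282.ZP Pool.Agent.Y152.BD
open Pool.Agent.Q170.ZP (IndExp coreW)
open Pool.Agent.Y152.RP.Fam (SpecialVariety SpecialVariety.locus valueAt rel_of_locus)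
open Pool.Agent.Q170.ZP.Multi (evM evM_apply evM_int ev_smul evalAt OnB v_int_one v_int_lt aeval_int)
open Pool.Agent.Q170.PK (goodQ)

/-- The divisors of the quotients `A i / Q i`, the factors `D ^ e` of the `Q i` being omitted, and given
hyperplanes. -/
noncomputable def divs {K : Subfield ℂ} {r N n m : ℕ}
    (A U : Fin n → MvPolynomial (Fin (N + 1)) (MvPolynomial (Fin r) K))
    (h : Fin (m + 1) → Fin (N + 1) → ℤ) :
    Fin n ⊕ Fin (m + 1) → MvPolynomial (Fin (N + 1)) (MvPolynomial (Fin r) K) :=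
  Sum.elim (fun i => A i * U i)
    (fun b => ∑ j, C ((h b j : ℤ) : MvPolynomial (Fin r) K) * X j)

theorem divs_inr {K : Subfield ℂ} {r N n m : ℕ}
    (A U : Fin n → MvPolynomial (Fin (N + 1)) (MvPolynomial (Fin r) K))
    (h : Fin (m + 1) → Fin (N + 1) → ℤ) (t : Fin r → ℂ) (y : Fin (N + 1) → ℂ) (b : Fin (m + 1)) :
    eval₂ (evM K t) y (divs A U h (Sum.inr b)) = ∑ j, (h b j : ℂ) * y j := by
  rw [divs, Sum.elim_inr, ← coe_eval₂Hom, map_sum]
  refine Finset.sum_congr rfl fun j _ => ?_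
  rw [map_mul, coe_eval₂Hom, eval₂_C, eval₂_X, map_intCast]

theorem divs_inl {K : Subfield ℂ} {r N n m : ℕ}
    (A U : Fin n → MvPolynomial (Fin (N + 1)) (MvPolynomial (Fin r) K))
    (h : Fin (m + 1) → Fin (N + 1) → ℤ) (t : Fin r → ℂ) (y : Fin (N + 1) → ℂ) (i : Fin n) :
    eval₂ (evM K t) y (divs A U h (Sum.inl i)) =
      eval₂ (evM K t) y (A i) * eval₂ (evM K t) y (U i) := by
  rw [divs, Sum.elim_inl, eval₂_mul]

theorem lf_smul {N : ℕ} (s : Fin (N + 1) → ℤ) (c : ℂ) (y : Fin (N + 1) → ℂ) :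
    ∑ j, (s j : ℂ) * (c • y) j = c * ∑ j, (s j : ℂ) * y j := by
  rw [Finset.mul_sum]
  refine Finset.sum_congr rfl fun i _ => ?_
  rw [Pi.smul_apply, smul_eq_mul]
  ring

/-- the coefficients are units at almost all places -/
theorem exists_units {k : Type} [Field k] [Algebra k ℂ] {n : ℕ}
    (R : Fin n → Polynomial (Polynomial k)) :
    ∃ W : Set k, W.Finite ∧ ∀ V : ValuationSubring ℂ, (∀ z ∈ W, algebraMap k ℂ z ∈ V) →
      ∀ i u w, ((R i).coeff u).coeff w ≠ 0 →
        V.valuation (algebraMap k ℂ (((R i).coeff u).coeff w)) = 1 := by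
  classical
  let W : Set k := ⋃ i, ⋃ u ∈ (R i).support, ⋃ w ∈ ((R i).coeff u).support,
    {((R i).coeff u).coeff w, (((R i).coeff u).coeff w)⁻¹}
  refine ⟨W, ?_, ?_⟩
  · refine Set.finite_iUnion fun i => (Finset.finite_toSet _).biUnion fun u _ =>
      (Finset.finite_toSet _).biUnion fun w _ => ?_
    exact (Set.finite_singleton _).insert _
  · intro V hV i u w h0
    have hu : u ∈ (R i).support := by
      rw [Polynomial.mem_support_iff]
      intro h
      rw [h, Polynomial.coeff_zero] at h0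
      exact h0 rfl
    have hw : w ∈ ((R i).coeff u).support := Polynomial.mem_support_iff.2 h0
    have hmem : ∀ z ∈ ({((R i).coeff u).coeff w, (((R i).coeff u).coeff w)⁻¹} : Set k),
        algebraMap k ℂ z ∈ V := fun z hz => hV z
      (Set.mem_iUnion.2 ⟨i, Set.mem_iUnion₂.2 ⟨u, hu, Set.mem_iUnion₂.2 ⟨w, hw, hz⟩⟩⟩)
    have h1 := (ValuationSubring.valuation_le_one_iff V _).2 (hmem _ (Or.inl rfl))
    have h2 := (ValuationSubring.valuation_le_one_iff V _).2 (hmem _ (Or.inr rfl))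
    refine le_antisymm h1 ?_
    rw [map_inv₀, map_inv₀] at h2
    have h3 : V.valuation (algebraMap k ℂ (((R i).coeff u).coeff w)) ≠ 0 :=
      (Valuation.ne_zero_iff _).2 ((map_ne_zero _).2 h0)
    exact (inv_le_one₀ (zero_lt_iff.2 h3)).1 h2

/-- The linear forms separate the points of the member with an integral parameter from zero. -/
theorem goodAt_fixed (K : Subfield ℂ) (κ : Type) [Finite κ] {r N m : ℕ}
    (G : κ → MvPolynomial (Fin (N + 1)) (MvPolynomial (Fin r) K))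
    (hG : ∀ a, ∃ e, (G a).IsHomogeneous e) (h : Fin (m + 1) → Fin (N + 1) → ℤ) (t : Fin r → ℤ)
    (hlin : ∀ y : Fin (N + 1) → ℂ, (∀ a, eval₂ (evM K fun j => (t j : ℂ)) y (G a) = 0) →
      (∀ b, ∑ j, (h b j : ℂ) * y j = 0) → y = 0) :
    ∃ W : Set (algebraicClosure K ℂ), W.Finite ∧ ∀ y : Fin (N + 1) → ℂ, y ≠ 0 →
      (∀ a, eval₂ (evM K fun j => (t j : ℂ)) y (G a) = 0) → GoodAt W h y := by
  classical
  let k := algebraicClosure K ℂ
  have hcl : IsAlgClosure K k := inferInstance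
  have hac : IsAlgClosed k := hcl.isAlgClosed
  let sp : MvPolynomial (Fin r) K →+* MvPolynomial (Fin 0) K :=
    (C : K →+* MvPolynomial (Fin 0) K).comp (eval fun j => (t j : K))
  have hsp : ∀ (t' : Fin 0 → ℂ), (evM K t').comp sp = evM K fun j => (t j : ℂ) := by
    intro t'
    refine MvPolynomial.ringHom_ext (fun a => ?_) (fun j => ?_)
    · simp only [sp, RingHom.comp_apply, eval_C, evM_apply, aeval_C]
    · simp only [sp, RingHom.comp_apply, eval_X, evM_apply, aeval_X, aeval_C]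
      rw [map_intCast]
  have hev : ∀ (t' : Fin 0 → ℂ) (y : Fin (N + 1) → ℂ) (a : κ),
      eval₂ (evM K t') y (MvPolynomial.map sp (G a)) =
        eval₂ (evM K fun j => (t j : ℂ)) y (G a) := by
    intro t' y a
    rw [eval₂_map, hsp]
  have hlf : ∀ (t' : Fin 0 → ℂ) (y : Fin (N + 1) → ℂ) (b : Fin (m + 1)),
      eval₂ (evM K t') y (∑ j, C ((h b j : ℤ) : MvPolynomial (Fin 0) K) * X j) =
        ∑ j, (h b j : ℂ) * y j := by
    intro t' y b
    rw [← coe_eval₂Hom, map_sum]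
    refine Finset.sum_congr rfl fun j _ => ?_
    rw [map_mul, coe_eval₂Hom, eval₂_C, eval₂_X, map_intCast]
  obtain ⟨W, hW, hgood⟩ := goodQ (K := K) (k := k) (m := m) (ι := Fin (m + 1)) (β := Empty)
    (fun a => MvPolynomial.map sp (G a))
    (fun a => by
      obtain ⟨e, he⟩ := hG a
      exact ⟨e, he.map _⟩)
    (fun b => ∑ j, C ((h b j : ℤ) : MvPolynomial (Fin 0) K) * X j) (fun b => b.elim) 0 1
    (fun t' _ _ I hI y h1 h2 => by
      refine hlin y (fun a => by rw [← hev t']; exact h1 a) fun b => ?_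
      have h3 : I = Finset.univ := by
        rw [← Finset.card_eq_iff_eq_univ, hI, Fintype.card_fin]
      rw [← hlf t' y b]
      exact h2 b (by rw [h3]; exact Finset.mem_univ b))
  refine ⟨W, hW, fun y hy hyG V hV => ?_⟩
  obtain ⟨c, hc, hcV, -, -, hI⟩ := hgood V hV (fun j => j.elim0) (fun j => j.elim0)
    (by rw [map_zero, map_zero]; exact zero_lt_one) (by rw [map_one, map_one]) y hy
    (fun a => by rw [hev]; exact hyG a)
  obtain ⟨b, -, hb⟩ := hI Finset.univ (by rw [Finset.card_univ, Fintype.card_fin])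
  rw [hlf] at hb
  exact ⟨c, hc, hcV, b, hb⟩

/-- The points of the base which are mapped to special subvarieties. -/
theorem mainP (K : Subfield ℂ) (κ : Type) [Finite κ] (r N n m T : ℕ)
    (G : κ → MvPolynomial (Fin (N + 1)) (MvPolynomial (Fin r) K))
    (hG : ∀ a, ∃ e, (G a).IsHomogeneous e)
    (A P : Fin n → MvPolynomial (Fin (N + 1)) (MvPolynomial (Fin r) K)) (δ : Fin n → ℕ)
    (hA : ∀ i, (A i).IsHomogeneous (δ i))
    (R : Fin n → Polynomial (Polynomial K)) (hR : ∀ i, (R i).Monic)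
    (hT : ∀ i u w, ((R i).coeff u).coeff w ≠ 0 → u ≤ T ∧ w ≤ T)
    (D E : Fin (m + 2) → MvPolynomial (Fin r) ℤ)
    (U : Fin (m + 2) → Fin n → MvPolynomial (Fin (N + 1)) (MvPolynomial (Fin r) K))
    (hU : ∀ l i, (U l i).IsHomogeneous (δ i))
    (e : Fin (m + 2) → Fin n → ℕ) (hind : IndExp T e)
    (hP : ∀ l i, P i = C (MvPolynomial.map (Int.castRingHom K) (D l)) ^ e l i * U l i)
    (h : Fin (m + 2) → Fin (m + 1) → Fin (N + 1) → ℤ)
    (hpos : ∀ l (t : Fin r → ℂ), aeval t (D l) = 0 → aeval t (E l) ≠ 0 →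
      ∀ I : Finset (Fin n ⊕ Fin (m + 1)), I.card = m + 1 → ∀ y, OnB t G y →
        ∃ i ∈ I, eval₂ (evM K t) y (divs A (U l) (h l) i) ≠ 0)
    (Γ : Finset ℂ) (hΓ : ∀ γ ∈ Γ, γ ∈ K) :
    ∃ Q₀ : ℕ, ∀ t : Fin r → ℤ,
      (∀ l, ∃ p : ℕ, p.Prime ∧ Q₀ < p ∧ (p : ℤ) ∣ eval t (D l) ∧ ¬ (p : ℤ) ∣ eval t (E l)) →
      ∀ y, OnB (fun j => (t j : ℂ)) G y → ∀ x s : Fin n → ℂ,
      (∀ i, valueAt (R i) (s i) (x i) = 0 ∧
        eval₂ (evM K fun j => (t j : ℂ)) y (P i) * s i =
          eval₂ (evM K fun j => (t j : ℂ)) y (A i)) →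
      ∀ (ρ : ℕ) (Z : SpecialVariety (algebraMap (Algebra.adjoin ℤ (Γ : Set ℂ)) ℂ) n ρ),
        x ∈ Z.locus → ∀ (j0 : Fin (N + 1)) (T : Finset (Fin (N + 1))),
        AlgebraicIndependent K (fun j : T => y j / y j0) → T.card + n ≤ ρ + m := by
  classical
  let k := algebraicClosure K ℂ
  have hcl : IsAlgClosure K k := inferInstance
  have hac : IsAlgClosed k := hcl.isAlgClosed
  let φ : Polynomial K →+* Polynomial k := Polynomial.mapRingHom (algebraMap K k)
  let Γ' : Set k := (fun γ : Γ => algebraMap K k ⟨γ, hΓ γ γ.2⟩) '' Set.univ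
  have hΓ' : algebraMap k ℂ '' Γ' = (Γ : Set ℂ) := by
    ext z
    constructor
    · rintro ⟨_, ⟨g, -, rfl⟩, rfl⟩
      exact g.2
    · intro hz
      exact ⟨_, ⟨⟨z, hz⟩, trivial, rfl⟩, rfl⟩
  let Bf : Fin (m + 2) → Fin n ⊕ Fin n → MvPolynomial (Fin (N + 1)) (MvPolynomial (Fin r) K) :=
    fun l => Sum.elim A (U l)
  choose Wl hWl hgood using fun l : Fin (m + 2) => goodQ (K := K) (k := k) (m := m) G hG
    (divs A (U l) (h l)) (Bf l) (D l) (E l)
    (fun t hD hE I hI y h1 h2 => by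
      by_contra h0
      obtain ⟨i, hi, h3⟩ := hpos l t hD hE I hI y ⟨h0, h1⟩
      exact h3 (h2 i hi))
  obtain ⟨WR, hWR, hunits⟩ := exists_units (k := k) fun i => (R i).map φ
  let W : Set k := (⋃ l, Wl l) ∪ (WR ∪ Γ')
  have hW : W.Finite := (Set.finite_iUnion hWl).union (hWR.union (Set.toFinite _))
  have hRk : ∀ i, ((R i).map φ).Monic := fun i => (hR i).map _
  have hTk : ∀ i u w, (((R i).map φ).coeff u).coeff w ≠ 0 → u ≤ T ∧ w ≤ T := by
    intro i u w h0
    rw [Polynomial.coeff_map] at h0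
    change ((Polynomial.mapRingHom (algebraMap K k)) ((R i).coeff u)).coeff w ≠ 0 at h0
    rw [Polynomial.coe_mapRingHom, Polynomial.coeff_map] at h0
    exact hT i u w fun h1 => h0 (by rw [h1, map_zero])
  have := hW.to_subtype
  obtain ⟨Q₀, hQ⟩ := Pool.Agent.W466.ZC.exists_val' (fun z : W => (z : k))
  refine ⟨Q₀, fun t ht => ?_⟩
  obtain ⟨tc, htc⟩ : ∃ tc : Fin r → ℂ, tc = fun j => (t j : ℂ) := ⟨_, rfl⟩
  rw [← htc]
  rintro y hy x s hxy ρ Z hxZ j0 T' hT'
  choose p hp hpQ hpD hpE using ht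
  have hevD : ∀ P : MvPolynomial (Fin r) ℤ, aeval tc P = ((eval t P : ℤ) : ℂ) := fun P => by
    rw [htc, aeval_int]
  obtain ⟨hy0, hyG'⟩ := hy
  have hyG : ∀ i, eval₂ (evM K tc) y (G i) = 0 := hyG'
  -- the data at a place above `p l`
  have hplace : ∀ l (V : ValuationSubring ℂ), ((p l : ℕ) : ℂ) ∈ V.nonunits →
      (∀ z ∈ W, algebraMap k ℂ z ∈ V) → V.valuation ((p l : ℕ) : ℂ) < 1 ∧
      V.valuation (aeval tc (D l)) < 1 ∧ ∀ y : Fin (N + 1) → ℂ, y ≠ 0 →
      (∀ i, eval₂ (evM K tc) y (G i) = 0) →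
        ∃ c : ℂ, c ≠ 0 ∧ (∀ j, (c • y) j ∈ V) ∧
          (∀ i, eval₂ (evM K tc) (c • y) (divs A (U l) (h l) i) ∈ V) ∧
          (∀ i, eval₂ (evM K tc) (c • y) (Bf l i) ∈ V) ∧
          ∀ I : Finset (Fin n ⊕ Fin (m + 1)), I.card = m + 1 → ∃ i ∈ I,
            V.valuation (eval₂ (evM K tc) (c • y) (divs A (U l) (h l) i)) = 1 := by
    intro l V hV hVW
    have hVp : V.valuation ((p l : ℕ) : ℂ) < 1 := by rwa [ValuationSubring.mem_nonunits_iff] at hV
    have hVD : V.valuation (aeval tc (D l)) < 1 := by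
      rw [hevD]
      exact v_int_lt hVp (hpD l)
    refine ⟨hVp, hVD, fun y hy0 hyG => ?_⟩
    refine hgood l V (fun z hz => hVW z (Or.inl (Set.mem_iUnion.2 ⟨l, hz⟩))) tc (fun j => ?_)
      hVD ?_ y hy0 hyG
    · rw [htc]
      exact intCast_mem V _
    · rw [hevD]
      exact v_int_one (hp l) hVp (hpE l)
  -- no point of the base on all the linear forms
  have hlin : ∀ l (y : Fin (N + 1) → ℂ), (∀ i, eval₂ (evM K tc) y (G i) = 0) →
      (∀ b, ∑ j, (h l b j : ℂ) * y j = 0) → y = 0 := by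
    intro l y hyG hyL
    by_contra hy0
    obtain ⟨V, hV, hVW, -⟩ := hQ (p l) (hp l) (hpQ l) Empty (Empty.elim : Empty → ℂ)
      (algebraicIndependent_empty_type_iff.2 (algebraMap k ℂ).injective)
    obtain ⟨-, -, h1⟩ := hplace l V hV (fun z hz => hVW ⟨z, hz⟩)
    obtain ⟨c, -, -, -, -, hI⟩ := h1 y hy0 hyG
    obtain ⟨i, hi, h2⟩ := hI (Finset.univ.image Sum.inr) (by
      rw [Finset.card_image_of_injective _ Sum.inr_injective, Finset.card_univ, Fintype.card_fin])
    obtain ⟨b, -, rfl⟩ := Finset.mem_image.1 hi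
    rw [divs_inr, lf_smul, hyL b, mul_zero, map_zero] at h2
    exact zero_ne_one h2
  choose Wf hWf hgoodAt using fun l => goodAt_fixed K κ G hG (h l) t
    (by rw [← htc]; exact hlin l)
  -- a linear form which does not vanish
  have hb0 : ∀ l, ∃ b0 : Fin (m + 1), ∑ j, (h l b0 j : ℂ) * y j ≠ 0 := by
    intro l
    by_contra hcon
    push Not at hcon
    exact hy0 (hlin l y hyG hcon)
  choose b0 hb0 using hb0
  have hTk' : AlgebraicIndependent k (fun j : T' => y j / y j0) := hT'.extendScalars k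
  -- the independent linear forms
  have hz : ∀ l, (∑ j, (h l (b0 l) j : ℂ) * y j)⁻¹ • y ≠ 0 := fun l =>
    smul_ne_zero (inv_ne_zero (hb0 l)) hy0
  have hzG : ∀ l a, eval₂ (evM K tc) ((∑ j, (h l (b0 l) j : ℂ) * y j)⁻¹ • y) (G a) = 0 := by
    intro l a
    obtain ⟨w, hw⟩ := hG a
    rw [ev_smul tc hw, hyG a, mul_zero]
  have hrk : ∀ l, ∃ S : Finset (Fin (m + 1)), S.card = T'.card ∧ AlgebraicIndependent k
      (fun b : S => (∑ j, (h l (b0 l) j : ℂ) * y j)⁻¹ * ∑ j, (h l b j : ℂ) * y j) := by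
    intro l
    have h1 := rk_ratio (k := k) (hWf l) (hgoodAt l _ (hz l) (fun a => by
      rw [← htc]
      exact hzG l a)) j0 T' (by
      convert hTk' using 1
      funext j
      rw [Pi.smul_apply, Pi.smul_apply, smul_eq_mul, smul_eq_mul,
        mul_div_mul_left _ _ (inv_ne_zero (hb0 l))])
    obtain ⟨S, hS1, hS2⟩ := h1
    refine ⟨S, hS1, ?_⟩
    simp only [lf_smul] at hS2
    exact hS2
  choose S hS1 hS2 using hrk
  have hp0 : ∀ l, ((p l : ℕ) : k) ≠ 0 := fun l => by exact_mod_cast (hp l).ne_zero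
  choose V hV hVW hVx using fun l => hQ (p l) (hp l) (hpQ l) _ _
    (Pool.Agent.W466.EP.algInd_smul (hS2 l) (fun _ => ((p l : ℕ) : k)⁻¹)
      (fun _ => inv_ne_zero (hp0 l)))
  have hVW' : ∀ l, ∀ z ∈ W, algebraMap k ℂ z ∈ V l := fun l z hz => hVW l ⟨z, hz⟩
  have hVp : ∀ l, (V l).valuation ((p l : ℕ) : ℂ) < 1 := fun l => (hplace l (V l) (hV l) (hVW' l)).1
  have hVD : ∀ l, (V l).valuation (aeval tc (D l)) < 1 := fun l =>
    (hplace l (V l) (hV l) (hVW' l)).2.1
  choose c hc hcy hcA hcB hcI using fun l => (hplace l (V l) (hV l) (hVW' l)).2.2 y hy0 hyG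
  have hle : ∀ l i, (V l).valuation (eval₂ (evM K tc) (c l • y) (divs A (U l) (h l) i)) ≤ 1 :=
    fun l i => (ValuationSubring.valuation_le_one_iff (V l) _).2 (hcA l i)
  have hBle : ∀ l i, (V l).valuation (eval₂ (evM K tc) (c l • y) (Bf l i)) ≤ 1 := fun l i =>
    (ValuationSubring.valuation_le_one_iff (V l) _).2 (hcB l i)
  -- the linear forms of `S l`
  have hSb : ∀ l, ∀ b ∈ S l,
      (V l).valuation (eval₂ (evM K tc) (c l • y) (divs A (U l) (h l) (Sum.inr b))) < 1 := by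
    intro l b hbS
    have h3 := (ValuationSubring.valuation_le_one_iff (V l) _).2 (hVx l ⟨b, hbS⟩)
    have h5 := hle l (Sum.inr (b0 l))
    rw [divs_inr] at h5 ⊢
    have hp0' : ((p l : ℕ) : ℂ) ≠ 0 := by exact_mod_cast (hp l).ne_zero
    have h4 : (∑ j, (h l b j : ℂ) * (c l • y) j) = ((p l : ℕ) : ℂ) *
        (algebraMap k ℂ (((p l : ℕ) : k)⁻¹) * ((∑ j, (h l (b0 l) j : ℂ) * y j)⁻¹ *
          ∑ j, (h l b j : ℂ) * y j)) *
        (∑ j, (h l (b0 l) j : ℂ) * (c l • y) j) := by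
      rw [lf_smul, lf_smul, map_inv₀, map_natCast]
      field_simp [hb0 l]
    rw [h4, map_mul, map_mul]
    calc (V l).valuation ((p l : ℕ) : ℂ) * (V l).valuation
          (algebraMap k ℂ (((p l : ℕ) : k)⁻¹) * ((∑ j, (h l (b0 l) j : ℂ) * y j)⁻¹ *
            ∑ j, (h l b j : ℂ) * y j)) *
          (V l).valuation (∑ j, (h l (b0 l) j : ℂ) * (c l • y) j)
        ≤ (V l).valuation ((p l : ℕ) : ℂ) * 1 * 1 := mul_le_mul' (mul_le_mul' le_rfl h3) h5
      _ < 1 := by
        rw [mul_one, mul_one]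
        exact hVp l
  -- the exceptional coordinates
  let X : Fin (m + 2) → Finset (Fin n) := fun l => Finset.univ.filter fun i =>
    (V l).valuation (eval₂ (evM K tc) (c l • y) (divs A (U l) (h l) (Sum.inl i))) ≠ 1
  have hcard : ∀ l, (X l).card + T'.card ≤ m := by
    intro l
    by_contra hcon
    push Not at hcon
    have h0 : m < ((X l).disjSum (S l)).card := by
      rw [Finset.card_disjSum, hS1 l]
      exact hcon
    obtain ⟨I, hIE, hIc⟩ := Finset.exists_subset_card_eq (Nat.succ_le_of_lt h0)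
    obtain ⟨i, hi, h1⟩ := hcI l I hIc
    rcases i with i | b
    · have h2 := hIE hi
      rw [Finset.inl_mem_disjSum] at h2
      exact (Finset.mem_filter.1 h2).2 h1
    · have h2 := hIE hi
      rw [Finset.inr_mem_disjSum] at h2
      exact (hSb l b h2).ne h1
  have hval : ∀ l i, i ∉ X l → (V l).valuation (s i) *
      (V l).valuation (aeval tc (D l)) ^ e l i = 1 := by
    intro l i hi
    have h1 : (V l).valuation (eval₂ (evM K tc) (c l • y)
        (divs A (U l) (h l) (Sum.inl i))) = 1 := by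
      by_contra h4
      exact hi (Finset.mem_filter.2 ⟨Finset.mem_univ _, h4⟩)
    rw [divs_inl, map_mul] at h1
    have hA1 : (V l).valuation (eval₂ (evM K tc) (c l • y) (A i)) ≤ 1 := hBle l (Sum.inl i)
    have hU1 : (V l).valuation (eval₂ (evM K tc) (c l • y) (U l i)) ≤ 1 := hBle l (Sum.inr i)
    have hA2 : (V l).valuation (eval₂ (evM K tc) (c l • y) (A i)) = 1 := by
      refine le_antisymm hA1 ?_
      by_contra h
      push Not at h
      have h2 := (mul_le_of_le_one_right' hU1).trans_lt h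
      rw [h1] at h2
      exact lt_irrefl _ h2
    have hU2 : (V l).valuation (eval₂ (evM K tc) (c l • y) (U l i)) = 1 := by
      rwa [hA2, one_mul] at h1
    have h2 : eval₂ (evM K tc) (c l • y) (A i) =
        aeval tc (D l) ^ e l i * eval₂ (evM K tc) (c l • y) (U l i) * s i := by
      have h3 := (hxy i).2
      rw [hP l i, eval₂_mul, eval₂_pow, eval₂_C, evM_int] at h3
      rw [ev_smul tc (hA i), ev_smul tc (hU l i), ← h3]
      ring
    have h4 := congrArg (V l).valuation h2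
    rw [map_mul, map_mul, map_pow, hA2, hU2, mul_one] at h4
    rw [h4, mul_comm]
  have hmT : T'.card ≤ m := (Nat.le_add_left _ _).trans (hcard 0)
  have h1 : ∀ i, Z.cls i = none →
      IsIntegral (Algebra.adjoin ℤ (algebraMap k ℂ '' Γ')) (x i) := by
    intro i hi
    obtain ⟨z, hz⟩ := hxZ
    rw [hΓ', (hz i).1 hi]
    rcases Z.allowed i with ⟨τ, hτ, hc⟩ | h
    · rw [hc]
      exact (singular_modulus_integral τ hτ).tower_top
    · exact h
  have h2 : ∀ i, Polynomial.eval₂ (Polynomial.aeval (x i) : Polynomial k →ₐ[k] ℂ).toRingHom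
      (s i) ((R i).map φ) = 0 := by
    intro i
    rw [Polynomial.eval₂_map]
    have h1 : ((Polynomial.aeval (x i) : Polynomial k →ₐ[k] ℂ).toRingHom).comp φ =
        (Polynomial.aeval (x i) : Polynomial K →ₐ[K] ℂ).toRingHom := by
      ext z
      · simp [φ]
      · simp [φ]
    rw [h1]
    exact (hxy i).1
  have hΓV : ∀ l, ∀ z ∈ Γ', algebraMap k ℂ z ∈ V l := fun l z hz =>
    hVW' l z (Or.inr (Or.inr hz))
  have hmain := coreW (m := m - T'.card) (T := T) (L := m + 2) (by omega)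
    (fun i => (R i).map φ) hRk hTk e hind
    Z.cls (fun i => (Z.mat i).det.toNat) x s
    (fun i => by
      have := Z.det_pos i
      omega)
    (fun i hi => alg_of_int Γ' (h1 i hi)) (fun i j l hi hj => by
      have h5 := rel_of_locus Z hxZ i j l hi hj
      rw [Int.toNat_mul (Z.det_pos i).le (Z.det_pos j).le] at h5
      exact h5)
    h2 ∅ (by
      refine (algebraicIndependent_empty_type_iff (R := k)).2 ?_
      exact (algebraMap k ℂ).injective) V
    (fun l => (V l).valuation (aeval tc (D l))) hVD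
    (fun l i hi => v_le_of_int Γ' (V l) (hΓV l) (h1 i hi))
    (fun l => hunits (V l) fun z hz => hVW' l z (Or.inr (Or.inl hz)))
    (fun l i => absurd i.2 (Finset.notMem_empty _))
    (fun l => ⟨X l, by
      have := hcard l
      omega, hval l⟩)
  rw [Finset.card_empty] at hmain
  omega

end Pool.Agent.Q170.HL
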