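import Pool.Agent.Q170.PK.Near
import Pool.Agent.W466.CF
import Pool.Agent.W466.EH

/-!
The transcendence degree, over any field of characteristic zero, of a point of a projective variety is
seen by the linear forms of a finite projection (helper file; variants over arbitrary fields of the
lemmas of `Pool.Agent.TH971.RF.A4`).
-/

set_option autoImplicit false

open MvPolynomial

namespace Pool.Agent.Q170.HL

open Pool.Agent.W466.ZC

section matroid

variable {k K : Type*} [Field k] [Field K] [Algebra k K]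

open scoped IntermediateField.algebraAdjoinAdjoin in
theorem alg_adj (S : Set K) (x : K) :
    IsAlgebraic (Algebra.adjoin k S) x ↔ IsAlgebraic (IntermediateField.adjoin k S) x :=
  IsFractionRing.isAlgebraic_iff (Algebra.adjoin k S) (IntermediateField.adjoin k S) K

theorem mem_cl (S : Set K) (x : K) :
    x ∈ (AlgebraicIndependent.matroid k K).closure S ↔
      IsAlgebraic (IntermediateField.adjoin k S) x := by
  rw [AlgebraicIndependent.matroid_closure_eq, ← alg_adj]
  rfl

end matroid

variable {σ : Type} [Fintype σ] {k : Type} [Field k] [Algebra k ℂ] [CharZero k]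

/-- The linear forms `s` separate the point `z` from zero at almost all places. -/
def GoodAt (W : Set k) {m : ℕ} (s : Fin (m + 1) → σ → ℤ) (z : σ → ℂ) : Prop :=
  ∀ V : ValuationSubring ℂ, (∀ w ∈ W, algebraMap k ℂ w ∈ V) → ∃ c : ℂ, c ≠ 0 ∧
    (∀ j, (c • z) j ∈ V) ∧ ∃ b, V.valuation (∑ j, (s b j : ℂ) * (c • z) j) = 1

/-- The coordinates are algebraic over the field generated by the values of the linear forms. -/
theorem alg_coord {W : Set k} (hW : W.Finite) {m : ℕ} {s : Fin (m + 1) → σ → ℤ} {z : σ → ℂ}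
    (hgood : GoodAt W s z) (j : σ) :
    z j ∈ (AlgebraicIndependent.matroid k ℂ).closure
      (Set.range fun b => ∑ i, (s b i : ℂ) * z i) := by
  rw [mem_cl]
  by_contra htr
  have hWf := hW.to_subtype
  set k' := IntermediateField.adjoin k (Set.range fun b => ∑ i, (s b i : ℂ) * z i) with hk
  let t : W ⊕ Fin (m + 1) → k' := Sum.elim (fun w => algebraMap k k' (w : k))
    (fun b => ⟨∑ i, (s b i : ℂ) * z i, IntermediateField.subset_adjoin k _ ⟨b, rfl⟩⟩)
  have hc0 : CharZero k' := charZero_of_injective_algebraMap (algebraMap k k').injective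
  obtain ⟨D', hD'⟩ := exists_val' (k := k') t
  obtain ⟨p, hpge, hp⟩ := Nat.exists_infinite_primes (D' + 1)
  have hp0 : (p : ℂ) ≠ 0 := by exact_mod_cast hp.ne_zero
  have htr1 : Transcendental k' ((p * z j)⁻¹ : ℂ) := by
    intro h
    apply htr
    have h1 : IsAlgebraic k' (p * z j : ℂ) := by
      have := h.inv
      rwa [inv_inv] at this
    have h2 : IsAlgebraic k' ((p : ℂ)⁻¹ * (p * z j)) := by
      refine IsAlgebraic.mul ?_ h1
      exact (isAlgebraic_natCast (R := k') (A := ℂ) p).inv
    rwa [inv_mul_cancel_left₀ hp0] at h2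
  obtain ⟨V, hV, hVt, hVx⟩ := hD' p hp (by omega) Unit (fun _ => (p * z j)⁻¹)
    (algebraicIndependent_unique_type_iff.2 htr1)
  have hzj0 : z j ≠ 0 := by
    intro h0
    apply htr1
    rw [h0, mul_zero, inv_zero]
    exact isAlgebraic_zero
  set v := V.valuation with hv
  have hvp : v (p : ℂ) < 1 := by rwa [ValuationSubring.mem_nonunits_iff] at hV
  have h1 : v ((p * z j : ℂ)⁻¹) ≤ 1 := (ValuationSubring.valuation_le_one_iff V _).2 (hVx ())
  rw [map_inv₀] at h1
  have h2 : v (p * z j : ℂ) ≠ 0 := (map_ne_zero v).2 (mul_ne_zero hp0 hzj0)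
  have h3 : 1 ≤ v (p * z j : ℂ) := (inv_le_one₀ (zero_lt_iff.2 h2)).1 h1
  obtain ⟨c, hc, hcV, b, hb⟩ := hgood V (fun w hw => hVt (Sum.inl ⟨w, hw⟩))
  have h4 : ∑ i, (s b i : ℂ) * (c • z) i = c * ∑ i, (s b i : ℂ) * z i := by
    rw [Finset.mul_sum]
    refine Finset.sum_congr rfl fun i _ => ?_
    rw [Pi.smul_apply, smul_eq_mul]
    ring
  rw [h4, map_mul] at hb
  have h5 : v (∑ i, (s b i : ℂ) * z i) ≤ 1 :=
    (ValuationSubring.valuation_le_one_iff V _).2 (hVt (Sum.inr b))
  have h6 : 1 ≤ v c := by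
    have : v c * v (∑ i, (s b i : ℂ) * z i) ≤ v c := mul_le_of_le_one_right' h5
    rwa [hb] at this
  have h7 : v c * v (z j) ≤ 1 := by
    have := (ValuationSubring.valuation_le_one_iff V _).2 (hcV j)
    rwa [Pi.smul_apply, smul_eq_mul, map_mul] at this
  have h8 : v (z j) ≤ 1 := by
    have : v (z j) ≤ v c * v (z j) := le_mul_of_one_le_left' h6
    exact this.trans h7
  rw [map_mul] at h3
  have h9 : v (p : ℂ) * v (z j) < 1 := (mul_le_of_le_one_right' h8).trans_lt hvp
  exact absurd h3 (not_le.2 h9)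

omit [CharZero k] in
/-- An independent subfamily with as many elements as the rank allows. -/
theorem exists_sub {ι : Type} [Fintype ι] (u : ι → ℂ) (a : ℕ)
    (h : (a : ℕ∞) ≤ (AlgebraicIndependent.matroid k ℂ).eRk (Set.range u)) :
    ∃ S : Finset ι, S.card = a ∧ AlgebraicIndependent k (fun b : S => u b) := by
  classical
  obtain ⟨I, hI1, hI2, hI3⟩ := Matroid.le_eRk_iff.1 h
  have hsurj : Set.SurjOn u (u ⁻¹' I) I := by
    intro x hx
    obtain ⟨b, rfl⟩ := hI1 hx
    exact ⟨b, hx, rfl⟩
  obtain ⟨t, ht, htb⟩ := hsurj.exists_bijOn_subset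
  set S : Finset ι := t.toFinite.toFinset with hS
  refine ⟨S, ?_, ?_⟩
  · have h1 : t.encard = I.encard := htb.injOn.encard_image.symm.trans (by rw [htb.image_eq])
    rw [hI3] at h1
    have h2 : ((S.card : ℕ) : ℕ∞) = (a : ℕ∞) := by
      rw [← h1, ← Set.encard_coe_eq_coe_finsetCard, hS, Set.Finite.coe_toFinset]
    exact_mod_cast h2
  · have h1 : AlgebraicIndependent k (fun x : I => (x : ℂ)) := hI2
    have hSt : ∀ b : S, (b : ι) ∈ t := fun b => (Set.Finite.mem_toFinset _).1 b.2
    let f : S → I := fun b => ⟨u b, htb.mapsTo (hSt b)⟩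
    have hf : Function.Injective f := by
      intro b b' hbb
      have h2 : u b = u b' := congrArg Subtype.val hbb
      exact Subtype.ext (htb.injOn (hSt b) (hSt b') h2)
    exact h1.comp f hf

omit [CharZero k] in
theorem card_le_rk {τ : Type} (T : Finset τ) (w : τ → ℂ)
    (hw : AlgebraicIndependent k (fun j : T => w j)) (X : Set ℂ)
    (hX : ∀ j ∈ T, w j ∈ (AlgebraicIndependent.matroid k ℂ).closure X) :
    (T.card : ℕ∞) ≤ (AlgebraicIndependent.matroid k ℂ).eRk X := by
  rw [← Matroid.eRk_closure_eq, Matroid.le_eRk_iff]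
  refine ⟨Set.range fun j : T => w j, ?_, ?_, ?_⟩
  · rintro _ ⟨j, rfl⟩
    exact hX j j.2
  · rw [AlgebraicIndependent.matroid_indep_iff]
    exact AlgebraicIndependent.coe_range hw
  · rw [← Set.image_univ, hw.injective.injOn.encard_image, Set.encard_univ]
    simp

/-- The rank of the ratios of the coordinates. -/
theorem rk_ratio {W : Set k} (hW : W.Finite) {m : ℕ} {s : Fin (m + 1) → σ → ℤ} {z : σ → ℂ}
    (hgood : GoodAt W s z) (j0 : σ) (T : Finset σ)
    (hT : AlgebraicIndependent k (fun j : T => z j / z j0)) :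
    ∃ S : Finset (Fin (m + 1)), S.card = T.card ∧
      AlgebraicIndependent k (fun b : S => ∑ i, (s b i : ℂ) * z i) := by
  refine exists_sub (fun b => ∑ i, (s b i : ℂ) * z i) T.card
    (card_le_rk T (fun j => z j / z j0) hT _ fun j _ => ?_)
  have h1 := alg_coord hW hgood j
  have h2 := alg_coord hW hgood j0
  rw [mem_cl] at h1 h2 ⊢
  change IsAlgebraic _ (z j / z j0)
  rw [div_eq_mul_inv]
  exact h1.mul h2.inv

omit [CharZero k] in
/-- Ratios of algebraically independent numbers. -/
theorem ratio_ind {σ : Type} [DecidableEq σ] (y : σ → ℂ) (T : Finset σ)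
    (hT : AlgebraicIndependent k (fun j : T => y j)) {j0 : σ} (hj0 : j0 ∈ T) :
    AlgebraicIndependent k (fun j : (T.erase j0 : Finset σ) => y j / y j0) := by
  classical
  let u : T → ℂ := fun j => if (j : σ) = j0 then y j0 else y j / y j0
  have hy0 : y j0 ≠ 0 := hT.ne_zero ⟨j0, hj0⟩
  have hu0 : y j0 ∈ (AlgebraicIndependent.matroid k ℂ).closure (Set.range u) := by
    rw [mem_cl]
    have h1 : y j0 ∈ IntermediateField.adjoin k (Set.range u) :=
      IntermediateField.subset_adjoin k _ ⟨⟨j0, hj0⟩, by simp [u]⟩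
    exact isAlgebraic_algebraMap (⟨y j0, h1⟩ : IntermediateField.adjoin k (Set.range u))
  have h1 := card_le_rk T y hT (Set.range u) (fun j hj => by
    by_cases h : j = j0
    · rw [h]
      exact hu0
    · rw [mem_cl] at hu0 ⊢
      have h2 : y j / y j0 ∈ IntermediateField.adjoin k (Set.range u) :=
        IntermediateField.subset_adjoin k _ ⟨⟨j, hj⟩, by simp [u, h]⟩
      have h3 : IsAlgebraic (IntermediateField.adjoin k (Set.range u)) (y j / y j0) :=
        isAlgebraic_algebraMap (⟨_, h2⟩ : IntermediateField.adjoin k (Set.range u))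
      have h4 := h3.mul hu0
      rwa [div_mul_cancel₀ _ hy0] at h4)
  obtain ⟨S, hS1, hS2⟩ := exists_sub u T.card h1
  have hS : S = Finset.univ := by
    rw [← Finset.card_eq_iff_eq_univ, hS1, Fintype.card_coe]
  let f : {j // j ∈ T.erase j0} → S := fun j =>
    ⟨⟨j, Finset.mem_of_mem_erase j.2⟩, by rw [hS]; exact Finset.mem_univ _⟩
  have hf : Function.Injective f := by
    intro a b hab
    have h2 : (f a).1 = (f b).1 := congrArg Subtype.val hab
    have h3 : (f a).1.1 = (f b).1.1 := congrArg Subtype.val h2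
    exact Subtype.ext h3
  have h3 := hS2.comp f hf
  have h4 : (fun b : S => u b) ∘ f = fun j : (T.erase j0 : Finset σ) => y j / y j0 := by
    funext j
    change u ⟨j, _⟩ = _
    simp only [u]
    rw [if_neg (Finset.ne_of_mem_erase j.2)]
  rw [← h4]
  exact h3

end Pool.Agent.Q170.HL
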